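import Pool.Agent.Y120.J.Defs
import Pool.Agent.Y120.R.XY
import Pool.Agent.Y119.HY.Fam

/-!
# The family of the modular invariant: statement
-/

set_option autoImplicit false

open PowerSeries

namespace Pool.Agent.Y120.J

/-- the family -/
noncomputable def hJ : Fin 4 → ℚ⟦X⟧ := ![FF, GG, F1, G1]

/-- the hypothesis of the theorem on tuples -/
def T_FAM : Prop := ∀ δ : ℕ, Pool.Agent.Y120.R.Fam δ hJ

end Pool.Agent.Y120.J
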