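import Pool.Agent.Y120.J.Core2

/-!
# Points isogenous to points with integral modular invariant
-/

set_option autoImplicit false

open Pool.Agent.TH21.MS (g0 g1 g2 jj)
open Pool.Agent.Y120.R

namespace Pool.Agent.Y120.J

section
variable {k : ℕ}

/-- an integral matrix as a tuple `(a, b, c, d)` -/
structure M4 : Type where
  a : ℤ
  b : ℤ
  c : ℤ
  d : ℤ
  det : a * d - b * c ≠ 0

/-- the numerators -/
noncomputable def nI (g : Fin k → M4) (i : Fin k) : MvPolynomial (Σ _ : Fin k, Fin 3) ℤ :=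
  MvPolynomial.rename (fun j => ⟨i, j⟩) (MvPolynomial.C (g i).a * MvPolynomial.X 1 + MvPolynomial.C (g i).b * MvPolynomial.X 0 :
    MvPolynomial (Fin 3) ℤ)

/-- the denominators -/
noncomputable def mI (g : Fin k → M4) (i : Fin k) : MvPolynomial (Σ _ : Fin k, Fin 3) ℤ :=
  MvPolynomial.rename (fun j => ⟨i, j⟩) (uP (g i).c (g i).d)

lemma nI_deg (g : Fin k → M4) (i : Fin k) : (nI g i).totalDegree ≤ 1 :=
  (MvPolynomial.totalDegree_rename_le _ _).trans (deg_add' (degCX _ 1) (degCX _ 0))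

lemma mI_deg (g : Fin k → M4) (i : Fin k) : (mI g i).totalDegree ≤ 1 :=
  (MvPolynomial.totalDegree_rename_le _ _).trans (uP_deg _ _)

lemma nI_eval (g : Fin k → M4) (Z : Fin k → Fin 3 → ℂ) (i : Fin k) :
    MvPolynomial.eval₂ (Int.castRingHom ℂ) (fun w : Σ _ : Fin k, Fin 3 => Z w.1 w.2) (nI g i) =
      (g i).a * Z i 1 + (g i).b * Z i 0 := by
  unfold nI
  rw [MvPolynomial.eval₂_rename]
  exact e2_uP (Z i) (g i).a (g i).b

lemma mI_eval (g : Fin k → M4) (Z : Fin k → Fin 3 → ℂ) (i : Fin k) :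
    MvPolynomial.eval₂ (Int.castRingHom ℂ) (fun w : Σ _ : Fin k, Fin 3 => Z w.1 w.2) (mI g i) =
      (g i).c * Z i 1 + (g i).d * Z i 0 := by
  unfold mI
  rw [MvPolynomial.eval₂_rename]
  exact e2_uP (Z i) (g i).c (g i).d

/-- the substitution does not kill polynomials -/
theorem tr_neI {δ : ℕ} {F : MvPolynomial (Fin k) ℂ} (hF : F.totalDegree ≤ δ) (g : Fin k → M4)
    (h0 : Tr δ (nI g) (mI g) F = 0) : F = 0 := by
  refine MvPolynomial.funext fun x => ?_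
  rw [map_zero]
  set Z : Fin k → Fin 3 → ℂ := fun i => ![(g i).a - (g i).c * x i, (g i).d * x i - (g i).b, 0] with hZ
  have hdet : ∀ i, ((g i).a : ℂ) * (g i).d - (g i).b * (g i).c ≠ 0 := fun i => by exact_mod_cast (g i).det
  have hm : ∀ i, ((g i).c : ℂ) * Z i 1 + (g i).d * Z i 0 = (g i).a * (g i).d - (g i).b * (g i).c := by
    intro i
    show ((g i).c : ℂ) * ((g i).d * x i - (g i).b) + (g i).d * ((g i).a - (g i).c * x i) = _
    ring
  have hn : ∀ i, ((g i).a : ℂ) * Z i 1 + (g i).b * Z i 0 = ((g i).a * (g i).d - (g i).b * (g i).c) * x i := by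
    intro i
    show ((g i).a : ℂ) * ((g i).d * x i - (g i).b) + (g i).b * ((g i).a - (g i).c * x i) = _
    ring
  have h1 := Tr_eval (n := nI g) (m := mI g) hF (fun w : Σ _ : Fin k, Fin 3 => Z w.1 w.2) (fun v => by
    rw [mI_eval, hm]
    exact hdet v)
  rw [h0, map_zero] at h1
  have h2 : (∏ v, MvPolynomial.eval₂ (Int.castRingHom ℂ) (fun w : Σ _ : Fin k, Fin 3 => Z w.1 w.2) (mI g v) ^ δ) ≠ 0 := by
    refine Finset.prod_ne_zero_iff.2 fun v _ => pow_ne_zero _ ?_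
    rw [mI_eval, hm]
    exact hdet v
  have h3 := (mul_eq_zero.1 h1.symm).resolve_left h2
  rw [← h3]
  congr 1
  congr 1
  funext i
  rw [nI_eval, mI_eval, hm, hn, mul_div_cancel_left₀ _ (hdet i)]

/-- composition with an element of `SL(2, ℤ)` -/
lemma comp (g : M4) (γ : Matrix.SpecialLinearGroup (Fin 2) ℤ) {z : ℂ} {w w₀ : UpperHalfPlane}
    (hz : z * (g.c * w + g.d) = g.a * w + g.b) (hw : w = γ • w₀) :
    ∃ g' : M4, z * (g'.c * w₀ + g'.d) = g'.a * w₀ + g'.b := by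
  obtain ⟨-, -, -, hv, hne⟩ := Pool.Agent.Y508.J.t_mob γ w₀
  rw [← hw] at hv
  have hdet : (γ 0 0) * (γ 1 1) - (γ 0 1) * (γ 1 0) = 1 := by
    have h := γ.det_coe
    rw [Matrix.det_fin_two] at h
    exact h
  refine ⟨⟨g.a * γ 0 0 + g.b * γ 1 0, g.a * γ 0 1 + g.b * γ 1 1, g.c * γ 0 0 + g.d * γ 1 0, g.c * γ 0 1 + g.d * γ 1 1, ?_⟩, ?_⟩
  · have : (g.a * γ 0 0 + g.b * γ 1 0) * (g.c * γ 0 1 + g.d * γ 1 1) - (g.a * γ 0 1 + g.b * γ 1 1) * (g.c * γ 0 0 + g.d * γ 1 0) =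
        (g.a * g.d - g.b * g.c) * ((γ 0 0) * (γ 1 1) - (γ 0 1) * (γ 1 0)) := by ring
    rw [this, hdet, mul_one]
    exact g.det
  · have h1 : (w : ℂ) * ((γ 1 0 : ℂ) * w₀ + γ 1 1) = (γ 0 0 : ℂ) * w₀ + γ 0 1 := by
      rw [hv, div_mul_cancel₀ _ hne]
    push_cast
    have h2 : z * (g.c * w + g.d) * ((γ 1 0 : ℂ) * w₀ + γ 1 1) = (g.a * w + g.b) * ((γ 1 0 : ℂ) * w₀ + γ 1 1) := by
      rw [hz]
    linear_combination h2 + ((g.a : ℂ) - z * g.c) * h1

/-- the counting theorem for given signs -/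
theorem coreI (hDN : ∀ s, T_DN s) (hPT : ∀ s, T_PT s) (hFM : ∀ s, T_FM s) (k δ D : ℕ) (s : Fin k → Bool) :
    ∃ c C : ℝ, 0 < c ∧ 0 ≤ C ∧ ∀ (V : Submodule ℚ ℂ) [Module.Finite ℚ V], Module.finrank ℚ V ≤ D →
      ∀ (x : Fin k → ℕ) (N : ℕ), 1 ≤ N → ∀ S : Finset (Fin k → ℕ),
      (∀ t ∈ S, (∀ i, x i < t i ∧ t i ≤ x i + N) ∧ ∃ (z : Fin k → ℂ) (w : Fin k → UpperHalfPlane), (∀ i, jj (w i) = si (s i) * t i) ∧
        (∀ i, ∃ g : M4, z i * (g.c * w i + g.d) = g.a * w i + g.b) ∧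
        ∃ F : MvPolynomial (Fin k) ℂ, F ≠ 0 ∧ F.totalDegree ≤ δ ∧ (∀ s, F.coeff s ∈ V) ∧
          MvPolynomial.eval z F = 0) →
      (S.card : ℝ) ≤ C * (N : ℝ) ^ (k - 1) * ∑ i, (1 + N / ((x i : ℝ) + N) ^ c) := by
  classical
  choose T hT using hPT
  obtain ⟨w₀, hw₀⟩ := exists_nat_ge (max (max (T true) (T false)) 1)
  set d : ℕ := Fintype.card (Fin k) * (δ * 1) with hd
  obtain ⟨c, C, hc, hC, h1⟩ := relX' (k := k) (r := fun _ => 4) (ν := fun _ => Fin 3) (h := fun i => hS (s i)) d 3 D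
    fun i => hFM (s i) (d * 3)
  refine ⟨c, C + (w₀ + 1), hc, by positivity, ?_⟩
  intro V _ hV x N hN S hbad
  set S₁ := S.filter fun t => ∃ i, t i ≤ w₀ with hS₁
  set S₂ := S.filter fun t => ¬ ∃ i, t i ≤ w₀ with hS₂
  have hcard : S.card = S₁.card + S₂.card := (Finset.card_filter_add_card_filter_not _).symm
  have hb₁ : S₁.card ≤ k * (w₀ + 1) * N ^ (k - 1) := small w₀ N x S₁ fun t ht =>
    ⟨(hbad t (Finset.mem_filter.1 ht).1).1, (Finset.mem_filter.1 ht).2⟩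
  have hqd : ∀ i j, (qS (s i) j).totalDegree ≤ 3 := by
    intro i j
    unfold qS
    cases s i
    · fin_cases j
      · exact qJ_deg 0
      · show (qJ 1 + MvPolynomial.C (1 / 2) * qJ 0).totalDegree ≤ 3
        refine (MvPolynomial.totalDegree_add _ _).trans (max_le (qJ_deg 1) ?_)
        refine (MvPolynomial.totalDegree_mul _ _).trans ?_
        rw [MvPolynomial.totalDegree_C, zero_add]
        exact qJ_deg 0
      · exact qJ_deg 2
    · exact qJ_deg j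
  have hb₂ : (S₂.card : ℝ) ≤ C * (N : ℝ) ^ (k - 1) * ∑ i, (1 + N / ((x i : ℝ) + N) ^ c) := by
    refine h1 (fun i => qS (s i)) hqd V hV x N hN S₂ fun t ht => ?_
    obtain ⟨htS, hbig⟩ := Finset.mem_filter.1 ht
    obtain ⟨hbox, z, w, hz, hg, F, hF0, hFd, hFV, hFz⟩ := hbad t htS
    push Not at hbig
    have hti : ∀ i, T (s i) ≤ (t i : ℝ) := by
      intro i
      have h2 : (w₀ : ℝ) < t i := by exact_mod_cast hbig i
      have h4 : max (max (T true) (T false)) 1 ≤ (t i : ℝ) := hw₀.trans h2.le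
      cases s i
      · exact ((le_max_right _ _).trans (le_max_left _ _)).trans h4
      · exact ((le_max_left _ _).trans (le_max_left _ _)).trans h4
    have hpt := fun i => hT (s i) (t i) (w i) (hti i) (by rw [hz i]; push_cast; rfl)
    choose γ w' hγ hZ0 hw hd1 hd2 using hpt
    have hg' : ∀ i, ∃ g' : M4, z i * (g'.c * w' i + g'.d) = g'.a * w' i + g'.b := by
      intro i
      obtain ⟨g, hgi⟩ := hg i
      exact comp g (γ i) hgi (hγ i)
    choose g hgi using hg'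
    have hden : ∀ i, ((g i).c : ℂ) * pS (s i) (t i) 1 + (g i).d * pS (s i) (t i) 0 ≠ 0 := by
      intro i
      rw [← hw i]
      have e1 : ((g i).c : ℂ) * ((w' i : ℂ) * pS (s i) (t i) 0) + (g i).d * pS (s i) (t i) 0 =
          ((g i).c * w' i + (g i).d) * pS (s i) (t i) 0 := by ring
      rw [e1]
      refine mul_ne_zero ?_ (hZ0 i)
      intro h2
      have h3 := hgi i
      rw [h2, mul_zero] at h3
      have h4 : ((g i).a : ℂ) * (g i).d - (g i).b * (g i).c = 0 := by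
        by_cases hc : ((g i).c : ℂ) = 0
        · rw [hc, zero_mul, zero_add] at h2
          rw [hc, h2]
          ring
        · have h5 : ((g i).c : ℂ) * (((g i).a : ℂ) * (g i).d - (g i).b * (g i).c) = 0 := by
            linear_combination ((g i).a : ℂ) * (g i).c * h2 + ((g i).c : ℂ) ^ 2 * h3
          exact (mul_eq_zero.1 h5).resolve_left hc
      exact (g i).det (by exact_mod_cast h4)
    have hfr : ∀ i, (((g i).a : ℂ) * pS (s i) (t i) 1 + (g i).b * pS (s i) (t i) 0) /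
        ((g i).c * pS (s i) (t i) 1 + (g i).d * pS (s i) (t i) 0) = z i := by
      intro i
      rw [div_eq_iff (hden i), ← hw i]
      linear_combination (-(pS (s i) (t i) 0)) * hgi i
    have hpn : pn (fun i : Fin k => hS (s i)) (fun i => qS (s i)) (fun i => (t i : ℝ)) =
        fun v : Σ _ : Fin k, Fin 3 => pS (s v.1) (t v.1) v.2 := pn_eqS s _
    refine ⟨hbox, Tr δ (nI g) (mI g) F, Tr_deg (nI_deg g) (mI_deg g) hFd, Tr_mem hFV, ?_, ?_⟩
    · rw [hpn, Tr_eval hFd (fun v : Σ _ : Fin k, Fin 3 => pS (s v.1) (t v.1) v.2) fun v => by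
        rw [mI_eval g (fun i => pS (s i) (t i))]
        exact hden v]
      have e1 : (fun v : Fin k => MvPolynomial.eval₂ (Int.castRingHom ℂ)
          (fun v : Σ _ : Fin k, Fin 3 => pS (s v.1) (t v.1) v.2)
          (nI g v) / MvPolynomial.eval₂ (Int.castRingHom ℂ)
          (fun v : Σ _ : Fin k, Fin 3 => pS (s v.1) (t v.1) v.2) (mI g v)) = z := by
        funext v
        rw [mI_eval g (fun i => pS (s i) (t i)), nI_eval g (fun i => pS (s i) (t i)), hfr]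
      rw [e1, hFz, mul_zero]
    · rintro ⟨R, -, hR, hRF⟩
      rw [fn_zeroS hDN hR, map_zero] at hRF
      exact hF0 (tr_neI hFd g hRF.symm)
  have hN1 : (1 : ℝ) ≤ N := by exact_mod_cast hN
  have hk : (k : ℝ) ≤ ∑ i, (1 + (N : ℝ) / ((x i : ℝ) + N) ^ c) := by
    have h1 : ∑ _i : Fin k, (1 : ℝ) ≤ ∑ i, (1 + (N : ℝ) / ((x i : ℝ) + N) ^ c) := by
      refine Finset.sum_le_sum fun i _ => ?_
      have : 0 ≤ (N : ℝ) / ((x i : ℝ) + N) ^ c := by positivity
      linarith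
    rw [Finset.sum_const, Finset.card_univ, Fintype.card_fin, nsmul_eq_mul, mul_one] at h1
    exact h1
  have e2 : (S₁.card : ℝ) ≤ k * (w₀ + 1) * (N : ℝ) ^ (k - 1) := by exact_mod_cast hb₁
  have e4 : (k : ℝ) * (w₀ + 1) * (N : ℝ) ^ (k - 1) ≤ (w₀ + 1) * (N : ℝ) ^ (k - 1) * ∑ i, (1 + (N : ℝ) / ((x i : ℝ) + N) ^ c) := by
    have : (k : ℝ) * (w₀ + 1) * (N : ℝ) ^ (k - 1) = (w₀ + 1) * (N : ℝ) ^ (k - 1) * k := by ring
    rw [this]
    exact mul_le_mul_of_nonneg_left hk (by positivity)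
  rw [hcard]
  push_cast
  calc (S₁.card : ℝ) + S₂.card ≤ (w₀ + 1) * (N : ℝ) ^ (k - 1) * ∑ i, (1 + (N : ℝ) / ((x i : ℝ) + N) ^ c) +
        C * (N : ℝ) ^ (k - 1) * ∑ i, (1 + (N : ℝ) / ((x i : ℝ) + N) ^ c) := by linarith
    _ = _ := by ring

end

end Pool.Agent.Y120.J
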