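import Pool.Agent.TH21.MS.JFun

/-!
# The modular invariant by its q-expansion
-/

set_option autoImplicit false

namespace Pool.Agent.Y120.J

lemma exp_mul_succ (τ : ℂ) (m : ℕ) : Complex.exp (2 * (Real.pi : ℂ) * Complex.I * ((m : ℂ) + 1) * τ) =
    Complex.exp (2 * (Real.pi : ℂ) * Complex.I * τ) ^ (m + 1) := by
  rw [← Complex.exp_nat_mul]
  congr 1
  push_cast
  ring

lemma E4_same (τ : ℂ) : 1 + 240 * ∑' m : ℕ, ((ArithmeticFunction.sigma 3 (m + 1) : ℕ) : ℂ) *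
    Complex.exp (2 * (Real.pi : ℂ) * Complex.I * ((m : ℂ) + 1) * τ) = Pool.Agent.TH21.MS.E4 τ := by
  unfold Pool.Agent.TH21.MS.E4
  simp only [exp_mul_succ]

lemma E6_same (τ : ℂ) : 1 - 504 * ∑' m : ℕ, ((ArithmeticFunction.sigma 5 (m + 1) : ℕ) : ℂ) *
    Complex.exp (2 * (Real.pi : ℂ) * Complex.I * ((m : ℂ) + 1) * τ) = Pool.Agent.TH21.MS.E6 τ := by
  unfold Pool.Agent.TH21.MS.E6
  simp only [exp_mul_succ]

end Pool.Agent.Y120.J
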