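import Pool.Agent.Y120.J.Asm

/-!
# Both signs: statements
-/

set_option autoImplicit false

open PowerSeries Pool.Agent.Y113 Pool.Agent.Y120.R
open Pool.Agent.TH21.MS (g0 g1 g2 jj)

namespace Pool.Agent.Y120.J

/-- the family at `X = 1 / t` and at `X = - 1 / t` -/
noncomputable def hS (s : Bool) : Fin 4 → ℚ⟦X⟧ := fun j => if s then hJ j else PowerSeries.rescale (-1 : ℚ) (hJ j)

/-- the period functions: `Z₁ / Z₀ = z` -/
noncomputable def qS (s : Bool) : Fin 3 → MvPolynomial (Option (Fin 4)) ℂ :=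
  fun j => if s then qJ j else (![qJ 0, qJ 1 + MvPolynomial.C (1 / 2) * qJ 0, qJ 2] : Fin 3 → MvPolynomial (Option (Fin 4)) ℂ) j

/-- the values of the period functions at `t` -/
noncomputable def pS (s : Bool) (t : ℝ) (j : Fin 3) : ℂ := MvPolynomial.aeval (p1 (hS s) t) (qS s j)

/-- the sign -/
def si (s : Bool) : ℤ := if s then 1 else -1

/-- the hypothesis on the family -/
def T_FM (s : Bool) : Prop := ∀ δ : ℕ, Fam δ (hS s)

/-- the values of the period functions and of `z, j', j''` at the points with `j(z) = si s * t` -/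
def T_PT (s : Bool) : Prop := ∃ T : ℝ, ∀ (t : ℝ) (z : UpperHalfPlane), T ≤ t → jj z = si s * t →
  ∃ (γ : Matrix.SpecialLinearGroup (Fin 2) ℤ) (w : UpperHalfPlane), z = γ • w ∧ pS s t 0 ≠ 0 ∧
    (w : ℂ) * pS s t 0 = pS s t 1 ∧ deriv jj w = -(si s * t) * pS s t 0 ∧
    deriv (deriv jj) w = si s * t * (pS s t 0 ^ 2 - 2 * pS s t 0 * pS s t 2)

/-- the algebraic independence of the period functions -/
def T_DN (s : Bool) : Prop := ∀ (τ : ℝ) (P : MvPolynomial (Option (Fin 3)) ℂ),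
  (∀ t : ℝ, τ < t → MvPolynomial.eval (fun o => o.elim (1 / (t : ℂ)) (pS s t)) P = 0) → P = 0

/-- the value of a power series at a complex number -/
noncomputable def evc (f : ℚ⟦X⟧) (x : ℂ) : ℂ := ∑' m : ℕ, ((coeff m f : ℚ) : ℂ) * x ^ m

/-- the identities in a half-plane -/
def T_ANC : Prop := ∃ Y : ℝ, 1 ≤ Y ∧ ∀ z : ℂ, Y ≤ z.im → jj z ≠ 0 ∧ deriv jj z ≠ 0 ∧ evc FF (1 / jj z) ≠ 0 ∧
  deriv jj z = -tpi * jj z * evc FF (1 / jj z) ^ 2 ∧
  deriv (deriv jj) z = tpi ^ 2 * jj z * (evc FF (1 / jj z) ^ 4 - 2 * evc FF (1 / jj z) ^ 3 * evc F1 (1 / jj z)) ∧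
  Complex.exp (tpi * z - evc GG (1 / jj z) / evc FF (1 / jj z)) = 1 / jj z

/-- the points of the upper half-plane where `j` is real, negative and large are equivalent to points with real part `1/2` -/
def T_FDM : Prop := ∀ Y : ℝ, ∃ T : ℝ, ∀ z : UpperHalfPlane, ∀ t : ℝ, T ≤ t → jj z = -t →
  ∃ (γ : Matrix.SpecialLinearGroup (Fin 2) ℤ) (w : UpperHalfPlane), Y ≤ w.im ∧ w.re = 1 / 2 ∧ z = γ • w ∧ jj w = -t

end Pool.Agent.Y120.J
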