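import Pool.Agent.Y120.J.Pos
import Pool.Agent.Y120.J.Iso
import Pool.Agent.Y120.J.JDef
import Pool.Agent.Y949.J.Nfm
import Pool.Agent.Y165.J.Ndn
import Pool.Agent.Y664.J.FDM
import Pool.Agent.Y165.J.Npt
import Pool.Agent.Y319.J.Anc

/-!
# All parts together
-/

set_option autoImplicit false

open Pool.Agent.TH21.MS (g0 g1 g2 jj)

namespace Pool.Agent.Y120.J

theorem hanc : T_ANC := Pool.Agent.Y319.J.t_anc han hsd

theorem hfdm : T_FDM := Pool.Agent.Y664.J.t_fdm

theorem all_DN (s : Bool) : T_DN s := by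
  cases s
  · exact Pool.Agent.Y165.J.t_ndn hanc hzd hsd
  · exact dn_true

theorem all_PT (s : Bool) : T_PT s := by
  cases s
  · exact Pool.Agent.Y165.J.t_npt hanc hfdm hsd
  · exact pt_true

theorem all_FM (s : Bool) : T_FM s := by
  cases s
  · exact Pool.Agent.Y949.J.t_nfm hode hsd
  · exact fm_true

/-- from given signs to all tuples of integers -/
theorem sum_signs (k D : ℕ) (Pr : Submodule ℚ ℂ → (Fin k → ℤ) → Prop)
    (h : ∀ s : Fin k → Bool, ∃ c C : ℝ, 0 < c ∧ 0 ≤ C ∧ ∀ (V : Submodule ℚ ℂ) [Module.Finite ℚ V],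
      Module.finrank ℚ V ≤ D → ∀ (x : Fin k → ℕ) (N : ℕ), 1 ≤ N → ∀ S : Finset (Fin k → ℕ),
      (∀ t ∈ S, (∀ i, x i < t i ∧ t i ≤ x i + N) ∧ Pr V fun i => si (s i) * t i) →
      (S.card : ℝ) ≤ C * (N : ℝ) ^ (k - 1) * ∑ i, (1 + N / ((x i : ℝ) + N) ^ c)) :
    ∃ c C : ℝ, 0 < c ∧ 0 ≤ C ∧ ∀ (V : Submodule ℚ ℂ) [Module.Finite ℚ V], Module.finrank ℚ V ≤ D →
      ∀ (x : Fin k → ℕ) (N : ℕ), 1 ≤ N → ∀ S : Finset (Fin k → ℤ),
      (∀ t ∈ S, (∀ i, (x i : ℤ) < |t i| ∧ |t i| ≤ x i + N) ∧ Pr V t) →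
      (S.card : ℝ) ≤ C * (N : ℝ) ^ (k - 1) * ∑ i, (1 + N / ((x i : ℝ) + N) ^ c) := by
  classical
  choose c C hc hC h1 using h
  obtain ⟨c₀, hc₀, hcc⟩ := exists_lower c hc
  refine ⟨c₀, ∑ s, C s, hc₀, Finset.sum_nonneg fun s _ => hC s, ?_⟩
  intro V _ hV x N hN S hbad
  set f : (Fin k → ℤ) → Fin k → ℕ := fun t i => (t i).natAbs with hf
  set Ss : (Fin k → Bool) → Finset (Fin k → ℤ) := fun s => S.filter fun t => ∀ i, t i = si (s i) * ((t i).natAbs : ℤ) with hSs
  have hcov : S ⊆ Finset.univ.biUnion Ss := by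
    intro t ht
    refine Finset.mem_biUnion.2 ⟨fun i => decide (0 < t i), Finset.mem_univ _, Finset.mem_filter.2 ⟨ht, fun i => ?_⟩⟩
    unfold si
    by_cases h0 : 0 < t i
    · simp only [h0, decide_true, if_true, one_mul]
      omega
    · simp only [h0, decide_false]
      simp only [Bool.false_eq_true, if_false]
      omega
  have hpos : (0 : ℝ) ≤ (N : ℝ) ^ (k - 1) := by positivity
  have hs : ∀ s, ((Ss s).card : ℝ) ≤ C s * (N : ℝ) ^ (k - 1) * ∑ i, (1 + N / ((x i : ℝ) + N) ^ c₀) := by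
    intro s
    have hinj : Set.InjOn f (Ss s : Set (Fin k → ℤ)) := by
      intro t ht t' ht' h
      have h2 := (Finset.mem_filter.1 (Finset.mem_coe.1 ht)).2
      have h2' := (Finset.mem_filter.1 (Finset.mem_coe.1 ht')).2
      funext i
      rw [h2 i, h2' i]
      have h3 : (t i).natAbs = (t' i).natAbs := congrFun h i
      rw [h3]
    rw [← Finset.card_image_of_injOn hinj]
    have h2 := h1 s V hV x N hN ((Ss s).image f) (by
      intro u hu
      obtain ⟨t, ht, rfl⟩ := Finset.mem_image.1 hu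
      obtain ⟨htS, hsg⟩ := Finset.mem_filter.1 ht
      obtain ⟨hbox, hPr⟩ := hbad t htS
      refine ⟨fun i => ?_, ?_⟩
      · have h3 := hbox i
        show x i < (t i).natAbs ∧ (t i).natAbs ≤ x i + N
        rw [Int.abs_eq_natAbs] at h3
        omega
      · have e : (fun i => si (s i) * ((f t i : ℕ) : ℤ)) = t := by
          funext i
          exact (hsg i).symm
        rw [e]
        exact hPr)
    refine h2.trans ?_
    refine mul_le_mul_of_nonneg_left ?_ (mul_nonneg (hC s) hpos)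
    refine Finset.sum_le_sum fun i _ => ?_
    have hN1 : (1 : ℝ) ≤ N := by exact_mod_cast hN
    have hb : (1 : ℝ) ≤ (x i : ℝ) + N := by
      have : (0 : ℝ) ≤ x i := Nat.cast_nonneg _
      linarith
    have h5 : ((x i : ℝ) + N) ^ c₀ ≤ ((x i : ℝ) + N) ^ c s := Real.rpow_le_rpow_of_exponent_le hb (hcc s)
    have h6 : 0 < ((x i : ℝ) + N) ^ c₀ := Real.rpow_pos_of_pos (by linarith) _
    have h7 : (N : ℝ) / ((x i : ℝ) + N) ^ c s ≤ N / ((x i : ℝ) + N) ^ c₀ :=
      div_le_div_of_nonneg_left (by linarith) h6 h5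
    linarith
  have h2 : (S.card : ℝ) ≤ ∑ s, ((Ss s).card : ℝ) := by
    have h3 := (Finset.card_le_card hcov).trans Finset.card_biUnion_le
    exact_mod_cast h3
  refine h2.trans ((Finset.sum_le_sum fun s _ => hs s).trans (le_of_eq ?_))
  rw [← Finset.sum_mul, ← Finset.sum_mul]

/-- the tuples for which some points isogenous to the points with `j = t i` satisfy a relation -/
def BdI (k δ : ℕ) (V : Submodule ℚ ℂ) (t : Fin k → ℤ) : Prop :=
  ∃ (z : Fin k → ℂ) (w : Fin k → UpperHalfPlane), (∀ i, jj (w i) = t i) ∧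
    (∀ i, ∃ g : M4, z i * (g.c * w i + g.d) = g.a * w i + g.b) ∧
    ∃ F : MvPolynomial (Fin k) ℂ, F ≠ 0 ∧ F.totalDegree ≤ δ ∧ (∀ s, F.coeff s ∈ V) ∧
      MvPolynomial.eval z F = 0

/-- the counting theorem for isogeny classes -/
theorem countI (k δ D : ℕ) :
    ∃ c C : ℝ, 0 < c ∧ 0 ≤ C ∧ ∀ (V : Submodule ℚ ℂ) [Module.Finite ℚ V], Module.finrank ℚ V ≤ D →
      ∀ (x : Fin k → ℕ) (N : ℕ), 1 ≤ N → ∀ S : Finset (Fin k → ℤ),
      (∀ t ∈ S, (∀ i, (x i : ℤ) < |t i| ∧ |t i| ≤ x i + N) ∧ BdI k δ V t) →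
      (S.card : ℝ) ≤ C * (N : ℝ) ^ (k - 1) * ∑ i, (1 + N / ((x i : ℝ) + N) ^ c) := by
  refine sum_signs k D (BdI k δ) fun s => ?_
  obtain ⟨c, C, hc, hC, h1⟩ := coreI all_DN all_PT all_FM k δ D s
  refine ⟨c, C, hc, hC, ?_⟩
  intro V _ hV x N hN S hS
  refine h1 V hV x N hN S fun t ht => ?_
  obtain ⟨hbox, z, w, hw, h⟩ := hS t ht
  refine ⟨hbox, z, w, fun i => ?_, h⟩
  rw [hw i]
  push_cast
  rfl

/-- rational matrices -/
theorem toM4 {z : ℂ} {w : UpperHalfPlane} (h : ∃ a b c d : ℚ, a * d - b * c ≠ 0 ∧ z = ((a : ℂ) * w + b) / ((c : ℂ) * w + d)) :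
    ∃ g : M4, z * (g.c * w + g.d) = g.a * w + g.b := by
  obtain ⟨a, b, c, d, hdet, hz⟩ := h
  have hden : (c : ℂ) * w + d ≠ 0 := by
    intro h0
    have h1 := congrArg Complex.im h0
    simp only [Complex.add_im, Complex.mul_im, Complex.ratCast_re, Complex.ratCast_im, zero_mul, add_zero, Complex.zero_im] at h1
    have hc : (c : ℝ) = 0 := (mul_eq_zero.1 h1).resolve_right w.im_pos.ne'
    have hc' : c = 0 := by exact_mod_cast hc
    rw [hc'] at h0 hdet
    have hd : (d : ℂ) = 0 := by simpa using h0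
    have hd' : d = 0 := by exact_mod_cast hd
    apply hdet
    rw [hd']
    ring
  obtain ⟨n, hn, a', b', c', d', ha, hb, hc, hd⟩ : ∃ n : ℤ, n ≠ 0 ∧ ∃ a' b' c' d' : ℤ, (a' : ℚ) = n * a ∧ (b' : ℚ) = n * b ∧
      (c' : ℚ) = n * c ∧ (d' : ℚ) = n * d := by
    refine ⟨(a.den * b.den * c.den * d.den : ℕ), ?_, a.num * b.den * c.den * d.den, b.num * a.den * c.den * d.den,
      c.num * a.den * b.den * d.den, d.num * a.den * b.den * c.den, ?_, ?_, ?_, ?_⟩
    · have h1 := a.den_pos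
      have h2 := b.den_pos
      have h3 := c.den_pos
      have h4 := d.den_pos
      exact_mod_cast (Nat.mul_pos (Nat.mul_pos (Nat.mul_pos h1 h2) h3) h4).ne'
    · have := Rat.mul_den_eq_num a
      push_cast
      rw [← this]
      ring
    · have := Rat.mul_den_eq_num b
      push_cast
      rw [← this]
      ring
    · have := Rat.mul_den_eq_num c
      push_cast
      rw [← this]
      ring
    · have := Rat.mul_den_eq_num d
      push_cast
      rw [← this]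
      ring
  refine ⟨⟨a', b', c', d', ?_⟩, ?_⟩
  · intro h0
    have h1 : ((a' : ℚ) * d' - b' * c') = 0 := by exact_mod_cast h0
    rw [ha, hb, hc, hd] at h1
    have h2 : (n : ℚ) ^ 2 * (a * d - b * c) = 0 := by linear_combination h1
    have h3 : (n : ℚ) ≠ 0 := by exact_mod_cast hn
    exact hdet ((mul_eq_zero.1 h2).resolve_left (pow_ne_zero 2 h3))
  · have ha' : (a' : ℂ) = n * a := by exact_mod_cast congrArg (fun x : ℚ => (x : ℂ)) ha
    have hb' : (b' : ℂ) = n * b := by exact_mod_cast congrArg (fun x : ℚ => (x : ℂ)) hb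
    have hc' : (c' : ℂ) = n * c := by exact_mod_cast congrArg (fun x : ℚ => (x : ℂ)) hc
    have hd' : (d' : ℂ) = n * d := by exact_mod_cast congrArg (fun x : ℚ => (x : ℂ)) hd
    show z * ((c' : ℂ) * w + d') = (a' : ℂ) * w + b'
    rw [ha', hb', hc', hd', hz, div_mul_eq_mul_div, div_eq_iff hden]
    ring

end Pool.Agent.Y120.J
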