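import Pool.Agent.Y120.J.Core
import Pool.Agent.Y120.J.Defs3

/-!
# Integers of both signs
-/

set_option autoImplicit false

open Pool.Agent.TH21.MS (g0 g1 g2 jj)
open Pool.Agent.Y120.R

namespace Pool.Agent.Y120.J

section
variable {k : ℕ} {ν : Type}

/-- a product of Zariski dense sets is Zariski dense -/
theorem multi' (S : Fin k → Set (ℂ × (ν → ℂ)))
    (hS : ∀ i, ∀ P : MvPolynomial (Option ν) ℂ, (∀ p ∈ S i, MvPolynomial.eval (fun o => o.elim p.1 p.2) P = 0) → P = 0)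
    (R : MvPolynomial (Σ _ : Fin k, ν) (MvPolynomial (Fin k) ℂ))
    (h : ∀ p : Fin k → ℂ × (ν → ℂ), (∀ i, p i ∈ S i) →
      MvPolynomial.eval₂ (MvPolynomial.eval₂Hom (RingHom.id ℂ) fun i => (p i).1) (fun v => (p v.1).2 v.2) R = 0) :
    R = 0 := by
  classical
  have key : ∀ A : Finset (Fin k), ∀ p : Fin k → ℂ × (ν → ℂ), (∀ i, i ∉ A → p i ∈ S i) →
      MvPolynomial.eval₂ (MvPolynomial.eval₂Hom (RingHom.id ℂ) fun i => (p i).1) (fun v => (p v.1).2 v.2) R = 0 := by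
    intro A
    induction A using Finset.induction_on with
    | empty => exact fun p hp => h p fun i => hp i (Finset.notMem_empty i)
    | insert a A ha ih =>
      intro p hp
      set Pa : MvPolynomial (Option ν) ℂ := MvPolynomial.eval₂
        (MvPolynomial.eval₂Hom (MvPolynomial.C (R := ℂ) (σ := Option ν)) fun i =>
          if i = a then MvPolynomial.X none else MvPolynomial.C (p i).1)
        (fun v => if v.1 = a then MvPolynomial.X (some v.2) else MvPolynomial.C ((p v.1).2 v.2)) R with hPa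
      have hev : ∀ w : ℂ × (ν → ℂ), MvPolynomial.eval (fun o => o.elim w.1 w.2) Pa =
          MvPolynomial.eval₂ (MvPolynomial.eval₂Hom (RingHom.id ℂ) fun i => (Function.update p a w i).1)
            (fun v => (Function.update p a w v.1).2 v.2) R := by
        intro w
        rw [hPa, MvPolynomial.hom_eval₂]
        congr 1
        · apply MvPolynomial.ringHom_ext
          · intro c
            simp
          · intro i
            by_cases hi : i = a
            · subst hi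
              simp
            · simp [hi]
        · funext v
          by_cases hi : v.1 = a
          · simp [hi]
          · simp [hi]
      have h0 : Pa = 0 := by
        refine hS a Pa fun w hw => ?_
        rw [hev]
        refine ih _ fun i hi => ?_
        by_cases hia : i = a
        · subst hia
          rw [Function.update_self]
          exact hw
        · rw [Function.update_of_ne hia]
          exact hp i fun h1 => (Finset.mem_insert.1 h1).elim hia hi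
      have h1 := hev (p a)
      rw [h0, map_zero, Function.update_eq_self] at h1
      exact h1.symm
  have hall : ∀ p : Fin k → ℂ × (ν → ℂ),
      MvPolynomial.eval₂ (MvPolynomial.eval₂Hom (RingHom.id ℂ) fun i => (p i).1) (fun v => (p v.1).2 v.2) R = 0 :=
    fun p => key Finset.univ p fun i hi => absurd (Finset.mem_univ i) hi
  ext1 s
  rw [MvPolynomial.coeff_zero]
  refine MvPolynomial.funext fun x => ?_
  rw [map_zero]
  have h2 : MvPolynomial.map (MvPolynomial.eval₂Hom (RingHom.id ℂ) x) R = 0 := by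
    refine MvPolynomial.funext fun z => ?_
    rw [map_zero, MvPolynomial.eval_map]
    exact hall fun i => (x i, fun j => z ⟨i, j⟩)
  have h3 := congrArg (MvPolynomial.coeff s) h2
  rw [MvPolynomial.coeff_map, MvPolynomial.coeff_zero] at h3
  exact h3

end

/-- the curve -/
def SS (s : Bool) (τ : ℝ) : Set (ℂ × (Fin 3 → ℂ)) := {p | ∃ t : ℝ, τ < t ∧ p = (1 / (t : ℂ), pS s t)}

lemma SS_dense {s : Bool} (h : T_DN s) (τ : ℝ) (P : MvPolynomial (Option (Fin 3)) ℂ)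
    (hP : ∀ p ∈ SS s τ, MvPolynomial.eval (fun o => o.elim p.1 p.2) P = 0) : P = 0 := by
  refine h τ P ?_
  intro t ht
  have hm : (1 / (t : ℂ), pS s t) ∈ SS s τ := ⟨t, ht, rfl⟩
  exact hP (1 / (t : ℂ), pS s t) hm

section
variable {k : ℕ} (s : Fin k → Bool)

lemma pn_eqS (t : Fin k → ℝ) : pn (fun i : Fin k => hS (s i)) (fun i => qS (s i)) t = fun v => pS (s v.1) (t v.1) v.2 := rfl

variable {s}

theorem fn_zeroS (h : ∀ s, T_DN s) {R : MvPolynomial (Σ _ : Fin k, Fin 3) (MvPolynomial (Fin k) ℂ)}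
    (hR : Fn (fun i : Fin k => hS (s i)) (fun i => qS (s i)) R) : R = 0 := by
  obtain ⟨τ, hτ⟩ := hR
  refine multi' (fun i => SS (s i) τ) (fun i => SS_dense (h (s i)) τ) R ?_
  intro p hp
  choose t ht hps using hp
  have h1 := hτ t ht
  rw [pn_eqS] at h1
  have e : p = fun i => (1 / (t i : ℂ), pS (s i) (t i)) := funext hps
  rw [e]
  exact h1

end

/-- the values as fractions -/
theorem ptsS {Z : Fin 3 → ℂ} {w : UpperHalfPlane} {t : ℤ} (hZ0 : Z 0 ≠ 0) (hw : (w : ℂ) * Z 0 = Z 1)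
    (h1 : deriv jj w = -t * Z 0) (h2 : deriv (deriv jj) w = t * (Z 0 ^ 2 - 2 * Z 0 * Z 2))
    (γ : Matrix.SpecialLinearGroup (Fin 2) ℤ) {z : UpperHalfPlane} (hz : z = γ • w) :
    (∀ j, e2 Z (mm (γ 1 0) (γ 1 1) j) ≠ 0) ∧
    ∀ j, jt z j = e2 Z (nn (γ 0 0) (γ 0 1) (γ 1 0) (γ 1 1) t j) / e2 Z (mm (γ 1 0) (γ 1 1) j) := by
  obtain ⟨-, hd1, hd2, hv, hne⟩ := Pool.Agent.Y508.J.t_mob γ w
  rw [← hz] at hd1 hd2 hv
  rw [h1] at hd1 hd2
  rw [h2] at hd2
  have hu : (γ 1 0 : ℂ) * Z 1 + γ 1 1 * Z 0 = ((γ 1 0 : ℂ) * w + γ 1 1) * Z 0 := by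
    rw [← hw]
    ring
  have hn : (γ 0 0 : ℂ) * Z 1 + γ 0 1 * Z 0 = ((γ 0 0 : ℂ) * w + γ 0 1) * Z 0 := by
    rw [← hw]
    ring
  have hu0 : (γ 1 0 : ℂ) * Z 1 + γ 1 1 * Z 0 ≠ 0 := by
    rw [hu]
    exact mul_ne_zero hne hZ0
  set U : ℂ := (γ 1 0 : ℂ) * w + γ 1 1 with hU
  refine ⟨fun j => ?_, fun j => ?_⟩
  · rw [e2_mm]
    fin_cases j
    · exact hu0
    · exact hZ0
    · exact pow_ne_zero 3 hZ0
  · rw [e2_mm, e2_nn]
    fin_cases j
    · show (z : ℂ) = ((γ 0 0 : ℂ) * Z 1 + γ 0 1 * Z 0) / ((γ 1 0 : ℂ) * Z 1 + γ 1 1 * Z 0)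
      rw [hv, hu, hn, mul_div_mul_right _ _ hZ0]
    · show deriv jj z = (-t * ((γ 1 0 : ℂ) * Z 1 + γ 1 1 * Z 0) ^ 2) / Z 0
      rw [hd1, hu, eq_div_iff hZ0]
      ring
    · show deriv (deriv jj) z = (t * ((γ 1 0 : ℂ) * Z 1 + γ 1 1 * Z 0) ^ 3 *
        (((γ 1 0 : ℂ) * Z 1 + γ 1 1 * Z 0) * (Z 0 - 2 * Z 2) - 2 * (γ 1 0 : ℂ) * Z 0)) / Z 0 ^ 3
      rw [hd2, hu, eq_div_iff (pow_ne_zero 3 hZ0)]
      ring

/-- the counting theorem for given signs -/
theorem coreS (hDN : ∀ s, T_DN s) (hPT : ∀ s, T_PT s) (hFM : ∀ s, T_FM s) (k δ D : ℕ) (s : Fin k → Bool) :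
    ∃ c C : ℝ, 0 < c ∧ 0 ≤ C ∧ ∀ (V : Submodule ℚ ℂ) [Module.Finite ℚ V], Module.finrank ℚ V ≤ D →
      ∀ (x : Fin k → ℕ) (N : ℕ), 1 ≤ N → ∀ S : Finset (Fin k → ℕ),
      (∀ t ∈ S, (∀ i, x i < t i ∧ t i ≤ x i + N) ∧ ∃ z : Fin k → UpperHalfPlane, (∀ i, jj (z i) = si (s i) * t i) ∧
        ∃ F : MvPolynomial (Fin k × Fin 3) ℂ, F ≠ 0 ∧ F.totalDegree ≤ δ ∧ (∀ s, F.coeff s ∈ V) ∧
          MvPolynomial.eval (fun v => jt (z v.1) v.2) F = 0) →
      (S.card : ℝ) ≤ C * (N : ℝ) ^ (k - 1) * ∑ i, (1 + N / ((x i : ℝ) + N) ^ c) := by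
  classical
  choose T hT using hPT
  obtain ⟨w₀, hw₀⟩ := exists_nat_ge (max (max (T true) (T false)) 1)
  set d : ℕ := Fintype.card (Fin k × Fin 3) * (δ * 8) with hd
  obtain ⟨c, C, hc, hC, h1⟩ := relX' (k := k) (r := fun _ => 4) (ν := fun _ => Fin 3) (h := fun i => hS (s i)) d 3 D
    fun i => hFM (s i) (d * 3)
  refine ⟨c, C + (w₀ + 1), hc, by positivity, ?_⟩
  intro V _ hV x N hN S hbad
  set S₁ := S.filter fun t => ∃ i, t i ≤ w₀ with hS₁
  set S₂ := S.filter fun t => ¬ ∃ i, t i ≤ w₀ with hS₂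
  have hcard : S.card = S₁.card + S₂.card := (Finset.card_filter_add_card_filter_not _).symm
  have hb₁ : S₁.card ≤ k * (w₀ + 1) * N ^ (k - 1) := small w₀ N x S₁ fun t ht =>
    ⟨(hbad t (Finset.mem_filter.1 ht).1).1, (Finset.mem_filter.1 ht).2⟩
  have hqd : ∀ i j, (qS (s i) j).totalDegree ≤ 3 := by
    intro i j
    unfold qS
    cases s i
    · fin_cases j
      · exact qJ_deg 0
      · show (qJ 1 + MvPolynomial.C (1 / 2) * qJ 0).totalDegree ≤ 3
        refine (MvPolynomial.totalDegree_add _ _).trans (max_le (qJ_deg 1) ?_)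
        refine (MvPolynomial.totalDegree_mul _ _).trans ?_
        rw [MvPolynomial.totalDegree_C, zero_add]
        exact qJ_deg 0
      · exact qJ_deg 2
    · exact qJ_deg j
  have hb₂ : (S₂.card : ℝ) ≤ C * (N : ℝ) ^ (k - 1) * ∑ i, (1 + N / ((x i : ℝ) + N) ^ c) := by
    refine h1 (fun i => qS (s i)) hqd V hV x N hN S₂ fun t ht => ?_
    obtain ⟨htS, hbig⟩ := Finset.mem_filter.1 ht
    obtain ⟨hbox, z, hz, F, hF0, hFd, hFV, hFz⟩ := hbad t htS
    push Not at hbig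
    have hti : ∀ i, T (s i) ≤ (t i : ℝ) ∧ 1 ≤ t i := by
      intro i
      have h2 : (w₀ : ℝ) < t i := by exact_mod_cast hbig i
      have h4 : max (max (T true) (T false)) 1 ≤ (t i : ℝ) := hw₀.trans h2.le
      refine ⟨?_, ?_⟩
      · cases s i
        · exact ((le_max_right _ _).trans (le_max_left _ _)).trans h4
        · exact ((le_max_left _ _).trans (le_max_left _ _)).trans h4
      · have h3 : (1 : ℝ) ≤ t i := (le_max_right _ 1).trans h4
        exact_mod_cast h3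
    have hti0 : ∀ i, si (s i) * (t i : ℤ) ≠ 0 := by
      intro i
      have h2 := (hti i).2
      have h3 : (t i : ℤ) ≠ 0 := by omega
      refine mul_ne_zero ?_ h3
      unfold si
      split_ifs <;> norm_num
    have hpt := fun i => hT (s i) (t i) (z i) (hti i).1 (by rw [hz i]; push_cast; rfl)
    choose γ w hγ hZ0 hw hd1 hd2 using hpt
    have hpts : ∀ i, (∀ j, e2 (pS (s i) (t i)) (mm (γ i 1 0) (γ i 1 1) j) ≠ 0) ∧
        ∀ j, jt (z i) j = e2 (pS (s i) (t i)) (nn (γ i 0 0) (γ i 0 1) (γ i 1 0) (γ i 1 1) (si (s i) * t i) j) /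
          e2 (pS (s i) (t i)) (mm (γ i 1 0) (γ i 1 1) j) := fun i =>
      ptsS (t := si (s i) * (t i : ℤ)) (hZ0 i) (hw i) (by rw [hd1 i]; push_cast; ring)
        (by rw [hd2 i]; push_cast; ring) (γ i) (hγ i)
    have hpn : pn (fun i : Fin k => hS (s i)) (fun i => qS (s i)) (fun i => (t i : ℝ)) =
        fun v : Σ _ : Fin k, Fin 3 => pS (s v.1) (t v.1) v.2 := pn_eqS s _
    refine ⟨hbox, Tr δ (nK γ fun i => si (s i) * (t i : ℤ)) (mK γ) F, Tr_deg (nK_deg γ _) (mK_deg γ) hFd, Tr_mem hFV, ?_, ?_⟩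
    · rw [hpn, Tr_eval hFd (fun v : Σ _ : Fin k, Fin 3 => pS (s v.1) (t v.1) v.2) fun v => by
        rw [mK_eval γ (fun i => pS (s i) (t i))]
        exact (hpts v.1).1 v.2]
      have e1 : (fun v : Fin k × Fin 3 => MvPolynomial.eval₂ (Int.castRingHom ℂ)
          (fun v : Σ _ : Fin k, Fin 3 => pS (s v.1) (t v.1) v.2)
          (nK γ (fun i => si (s i) * (t i : ℤ)) v) / MvPolynomial.eval₂ (Int.castRingHom ℂ)
          (fun v : Σ _ : Fin k, Fin 3 => pS (s v.1) (t v.1) v.2) (mK γ v)) = fun v => jt (z v.1) v.2 := by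
        funext v
        rw [mK_eval γ (fun i => pS (s i) (t i)), nK_eval γ _ (fun i => pS (s i) (t i)), (hpts v.1).2 v.2]
      rw [e1, hFz, mul_zero]
    · rintro ⟨R, -, hR, hRF⟩
      rw [fn_zeroS hDN hR, map_zero] at hRF
      exact hF0 (tr_ne hFd γ (fun i => si (s i) * (t i : ℤ)) hti0 hRF.symm)
  have hN1 : (1 : ℝ) ≤ N := by exact_mod_cast hN
  have hk : (k : ℝ) ≤ ∑ i, (1 + (N : ℝ) / ((x i : ℝ) + N) ^ c) := by
    have h1 : ∑ _i : Fin k, (1 : ℝ) ≤ ∑ i, (1 + (N : ℝ) / ((x i : ℝ) + N) ^ c) := by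
      refine Finset.sum_le_sum fun i _ => ?_
      have : 0 ≤ (N : ℝ) / ((x i : ℝ) + N) ^ c := by positivity
      linarith
    rw [Finset.sum_const, Finset.card_univ, Fintype.card_fin, nsmul_eq_mul, mul_one] at h1
    exact h1
  have e2 : (S₁.card : ℝ) ≤ k * (w₀ + 1) * (N : ℝ) ^ (k - 1) := by exact_mod_cast hb₁
  have e4 : (k : ℝ) * (w₀ + 1) * (N : ℝ) ^ (k - 1) ≤ (w₀ + 1) * (N : ℝ) ^ (k - 1) * ∑ i, (1 + (N : ℝ) / ((x i : ℝ) + N) ^ c) := by
    have : (k : ℝ) * (w₀ + 1) * (N : ℝ) ^ (k - 1) = (w₀ + 1) * (N : ℝ) ^ (k - 1) * k := by ring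
    rw [this]
    exact mul_le_mul_of_nonneg_left hk (by positivity)
  rw [hcard]
  push_cast
  calc (S₁.card : ℝ) + S₂.card ≤ (w₀ + 1) * (N : ℝ) ^ (k - 1) * ∑ i, (1 + (N : ℝ) / ((x i : ℝ) + N) ^ c) +
        C * (N : ℝ) ^ (k - 1) * ∑ i, (1 + (N : ℝ) / ((x i : ℝ) + N) ^ c) := by linarith
    _ = _ := by ring

end Pool.Agent.Y120.J
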