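import Mathlib

/-!
# Two general lemmas on polynomials: products of Zariski dense sets, and substitution of fractions
-/

set_option autoImplicit false

namespace Pool.Agent.Y120.J

section multi
variable {k : ℕ} {ν : Type}

/-- a product of Zariski dense sets is Zariski dense -/
theorem multi (S : Set (ℂ × (ν → ℂ)))
    (hS : ∀ P : MvPolynomial (Option ν) ℂ, (∀ p ∈ S, MvPolynomial.eval (fun o => o.elim p.1 p.2) P = 0) → P = 0)
    (R : MvPolynomial (Σ _ : Fin k, ν) (MvPolynomial (Fin k) ℂ))
    (h : ∀ p : Fin k → ℂ × (ν → ℂ), (∀ i, p i ∈ S) →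
      MvPolynomial.eval₂ (MvPolynomial.eval₂Hom (RingHom.id ℂ) fun i => (p i).1) (fun v => (p v.1).2 v.2) R = 0) :
    R = 0 := by
  classical
  have key : ∀ A : Finset (Fin k), ∀ p : Fin k → ℂ × (ν → ℂ), (∀ i, i ∉ A → p i ∈ S) →
      MvPolynomial.eval₂ (MvPolynomial.eval₂Hom (RingHom.id ℂ) fun i => (p i).1) (fun v => (p v.1).2 v.2) R = 0 := by
    intro A
    induction A using Finset.induction_on with
    | empty => exact fun p hp => h p fun i => hp i (Finset.notMem_empty i)
    | insert a A ha ih =>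
      intro p hp
      set Pa : MvPolynomial (Option ν) ℂ := MvPolynomial.eval₂
        (MvPolynomial.eval₂Hom (MvPolynomial.C (R := ℂ) (σ := Option ν)) fun i =>
          if i = a then MvPolynomial.X none else MvPolynomial.C (p i).1)
        (fun v => if v.1 = a then MvPolynomial.X (some v.2) else MvPolynomial.C ((p v.1).2 v.2)) R with hPa
      have hev : ∀ w : ℂ × (ν → ℂ), MvPolynomial.eval (fun o => o.elim w.1 w.2) Pa =
          MvPolynomial.eval₂ (MvPolynomial.eval₂Hom (RingHom.id ℂ) fun i => (Function.update p a w i).1)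
            (fun v => (Function.update p a w v.1).2 v.2) R := by
        intro w
        rw [hPa, MvPolynomial.hom_eval₂]
        congr 1
        · apply MvPolynomial.ringHom_ext
          · intro c
            simp
          · intro i
            by_cases hi : i = a
            · subst hi
              simp
            · simp [hi]
        · funext v
          by_cases hi : v.1 = a
          · simp [hi]
          · simp [hi]
      have h0 : Pa = 0 := by
        refine hS Pa fun w hw => ?_
        rw [hev]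
        refine ih _ fun i hi => ?_
        by_cases hia : i = a
        · rw [hia, Function.update_self]
          exact hw
        · rw [Function.update_of_ne hia]
          exact hp i fun h1 => (Finset.mem_insert.1 h1).elim hia hi
      have h1 := hev (p a)
      rw [h0, map_zero, Function.update_eq_self] at h1
      exact h1.symm
  have hall : ∀ p : Fin k → ℂ × (ν → ℂ),
      MvPolynomial.eval₂ (MvPolynomial.eval₂Hom (RingHom.id ℂ) fun i => (p i).1) (fun v => (p v.1).2 v.2) R = 0 :=
    fun p => key Finset.univ p fun i hi => absurd (Finset.mem_univ i) hi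
  ext1 s
  rw [MvPolynomial.coeff_zero]
  refine MvPolynomial.funext fun x => ?_
  rw [map_zero]
  have h2 : MvPolynomial.map (MvPolynomial.eval₂Hom (RingHom.id ℂ) x) R = 0 := by
    refine MvPolynomial.funext fun z => ?_
    rw [map_zero, MvPolynomial.eval_map]
    exact hall fun i => (x i, fun j => z ⟨i, j⟩)
  have h3 := congrArg (MvPolynomial.coeff s) h2
  rw [MvPolynomial.coeff_map, MvPolynomial.coeff_zero] at h3
  exact h3

end multi

section transfer
variable {σ ι : Type} [Fintype σ]

/-- the numerator of the result of the substitution of fractions `n v / m v` -/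
noncomputable def Tr (δ : ℕ) (n m : σ → MvPolynomial ι ℤ) (F : MvPolynomial σ ℂ) : MvPolynomial ι ℂ :=
  ∑ e ∈ F.support, MvPolynomial.C (F.coeff e) *
    MvPolynomial.map (Int.castRingHom ℂ) (∏ v, (n v ^ e v * m v ^ (δ - e v)))

variable {δ : ℕ} {n m : σ → MvPolynomial ι ℤ} {F : MvPolynomial σ ℂ}

lemma le_of_supp {F : MvPolynomial σ ℂ} (hF : F.totalDegree ≤ δ) {e : σ →₀ ℕ} (he : e ∈ F.support) (v : σ) : e v ≤ δ := by
  have h1 := MvPolynomial.le_totalDegree he
  have h2 : e v ≤ e.sum fun _ a => a := by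
    rw [Finsupp.sum_fintype _ _ fun _ => rfl]
    exact Finset.single_le_sum (f := fun v => e v) (fun _ _ => Nat.zero_le _) (Finset.mem_univ v)
  omega

lemma fac_deg {B : ℕ} {p q : MvPolynomial ι ℤ} (hp : p.totalDegree ≤ B) (hq : q.totalDegree ≤ B) {a : ℕ} (ha : a ≤ δ) :
    (p ^ a * q ^ (δ - a)).totalDegree ≤ δ * B := by
  have h1 : (p ^ a).totalDegree ≤ a * B := (MvPolynomial.totalDegree_pow p a).trans (Nat.mul_le_mul_left a hp)
  have h2 : (q ^ (δ - a)).totalDegree ≤ (δ - a) * B :=
    (MvPolynomial.totalDegree_pow q (δ - a)).trans (Nat.mul_le_mul_left (δ - a) hq)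
  have h3 : a * B + (δ - a) * B = δ * B := by rw [← add_mul, Nat.add_sub_cancel' ha]
  have h4 := MvPolynomial.totalDegree_mul (p ^ a) (q ^ (δ - a))
  omega

lemma term_deg {B : ℕ} (hn : ∀ v, (n v).totalDegree ≤ B) (hm : ∀ v, (m v).totalDegree ≤ B) (hF : F.totalDegree ≤ δ)
    {e : σ →₀ ℕ} (he : e ∈ F.support) :
    (∏ v, (n v ^ e v * m v ^ (δ - e v))).totalDegree ≤ Fintype.card σ * (δ * B) := by
  have h2 : ∑ v : σ, (n v ^ e v * m v ^ (δ - e v)).totalDegree ≤ ∑ _v : σ, δ * B :=
    Finset.sum_le_sum fun v _ => fac_deg (hn v) (hm v) (le_of_supp hF he v)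
  rw [Finset.sum_const, Finset.card_univ, smul_eq_mul] at h2
  exact (MvPolynomial.totalDegree_finsetProd _ _).trans h2

lemma map_deg (c : ℂ) (p : MvPolynomial ι ℤ) :
    (MvPolynomial.C c * MvPolynomial.map (Int.castRingHom ℂ) p).totalDegree ≤ p.totalDegree := by
  have h3 : (MvPolynomial.map (Int.castRingHom ℂ) p).totalDegree ≤ p.totalDegree :=
    Finset.sup_mono (MvPolynomial.support_map_subset _ _)
  have h4 := MvPolynomial.totalDegree_mul (MvPolynomial.C c) (MvPolynomial.map (Int.castRingHom ℂ) p)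
  rw [MvPolynomial.totalDegree_C, zero_add] at h4
  exact h4.trans h3

theorem Tr_deg {B : ℕ} (hn : ∀ v, (n v).totalDegree ≤ B) (hm : ∀ v, (m v).totalDegree ≤ B) (hF : F.totalDegree ≤ δ) :
    (Tr δ n m F).totalDegree ≤ Fintype.card σ * (δ * B) := by
  refine (MvPolynomial.totalDegree_finsetSum _ _).trans (Finset.sup_le fun e he => ?_)
  exact (map_deg _ _).trans (term_deg hn hm hF he)

theorem Tr_mem {V : Submodule ℚ ℂ} (hV : ∀ s, F.coeff s ∈ V) (s : ι →₀ ℕ) : (Tr δ n m F).coeff s ∈ V := by
  classical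
  unfold Tr
  rw [MvPolynomial.coeff_sum]
  refine V.sum_mem fun e _ => ?_
  rw [MvPolynomial.coeff_C_mul, MvPolynomial.coeff_map]
  set c : ℤ := MvPolynomial.coeff s (∏ v, (n v ^ e v * m v ^ (δ - e v)))
  have h1 : F.coeff e * (Int.castRingHom ℂ) c = (c : ℚ) • F.coeff e := by
    rw [Algebra.smul_def, mul_comm]
    congr 1
  rw [h1]
  exact V.smul_mem _ (hV e)

theorem Tr_eval (hF : F.totalDegree ≤ δ) (Z : ι → ℂ) (hZ : ∀ v, MvPolynomial.eval₂ (Int.castRingHom ℂ) Z (m v) ≠ 0) :
    MvPolynomial.eval Z (Tr δ n m F) = (∏ v, MvPolynomial.eval₂ (Int.castRingHom ℂ) Z (m v) ^ δ) *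
      MvPolynomial.eval (fun v => MvPolynomial.eval₂ (Int.castRingHom ℂ) Z (n v) /
        MvPolynomial.eval₂ (Int.castRingHom ℂ) Z (m v)) F := by
  classical
  unfold Tr
  rw [map_sum, MvPolynomial.eval_eq', Finset.mul_sum]
  refine Finset.sum_congr rfl fun e he => ?_
  rw [map_mul, MvPolynomial.eval_C, MvPolynomial.eval_map, ← MvPolynomial.coe_eval₂Hom, map_prod, ← mul_assoc,
    mul_comm (∏ v, _) (MvPolynomial.coeff e F), mul_assoc, ← Finset.prod_mul_distrib]
  congr 1
  refine Finset.prod_congr rfl fun v _ => ?_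
  have hev : e v ≤ δ := by
    have h1 := MvPolynomial.le_totalDegree he
    have h2 : e v ≤ e.sum fun _ a => a := by
      rw [Finsupp.sum_fintype _ _ fun _ => rfl]
      exact Finset.single_le_sum (f := fun v => e v) (fun _ _ => Nat.zero_le _) (Finset.mem_univ v)
    omega
  rw [map_mul, map_pow, map_pow, div_pow]
  have h3 := hZ v
  rw [← MvPolynomial.coe_eval₂Hom] at h3
  have h4 : (MvPolynomial.eval₂Hom (Int.castRingHom ℂ) Z) (m v) ^ δ =
      (MvPolynomial.eval₂Hom (Int.castRingHom ℂ) Z) (m v) ^ (δ - e v) *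
      (MvPolynomial.eval₂Hom (Int.castRingHom ℂ) Z) (m v) ^ e v := by
    rw [← pow_add, Nat.sub_add_cancel hev]
  rw [h4]
  have h5 := pow_ne_zero (e v) h3
  simp only [MvPolynomial.coe_eval₂Hom] at h5 ⊢
  field_simp

end transfer

end Pool.Agent.Y120.J
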