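import Pool.Agent.Y120.J.Defs2
import Pool.Agent.Y120.J.Gen
import Pool.Agent.Y120.R.Gx

/-!
# The points with integral modular invariant: assembly
-/

set_option autoImplicit false

open PowerSeries Pool.Agent.Y113 Pool.Agent.Y120.R
open Pool.Agent.TH21.MS (g0 g1 g2 jj)

namespace Pool.Agent.Y120.J

/-! ### the period functions -/

/-- the constant `2 π i` -/
noncomputable def tpi : ℂ := 2 * Real.pi * Complex.I

/-- the functions `2 π i F^2`, `F (F log X + G)`, `2 π i F θF` of the solutions and of `log s = - log X` -/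
noncomputable def qJ : Fin 3 → MvPolynomial (Option (Fin 4)) ℂ :=
  ![MvPolynomial.C tpi * (MvPolynomial.X (some 0) * MvPolynomial.X (some 0)),
    MvPolynomial.X (some 0) * (MvPolynomial.X (some 1) - MvPolynomial.X none * MvPolynomial.X (some 0)),
    MvPolynomial.C tpi * (MvPolynomial.X (some 0) * MvPolynomial.X (some 2))]

lemma deg_X (o : Option (Fin 4)) : (MvPolynomial.X o : MvPolynomial (Option (Fin 4)) ℂ).totalDegree ≤ 1 := by
  rw [MvPolynomial.totalDegree_X]

lemma deg_XX (o o' : Option (Fin 4)) : (MvPolynomial.X o * MvPolynomial.X o' : MvPolynomial (Option (Fin 4)) ℂ).totalDegree ≤ 2 := by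
  have := MvPolynomial.totalDegree_mul (MvPolynomial.X o : MvPolynomial (Option (Fin 4)) ℂ) (MvPolynomial.X o')
  have h1 := deg_X o
  have h2 := deg_X o'
  omega

lemma qJ_deg (j : Fin 3) : (qJ j).totalDegree ≤ 3 := by
  fin_cases j
  · show (MvPolynomial.C tpi * (MvPolynomial.X (some 0) * MvPolynomial.X (some 0)) : MvPolynomial (Option (Fin 4)) ℂ).totalDegree ≤ 3
    have := MvPolynomial.totalDegree_mul (MvPolynomial.C tpi : MvPolynomial (Option (Fin 4)) ℂ)
      (MvPolynomial.X (some 0) * MvPolynomial.X (some 0))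
    rw [MvPolynomial.totalDegree_C, zero_add] at this
    have h1 := deg_XX (some 0) (some 0)
    omega
  · show (MvPolynomial.X (some 0) * (MvPolynomial.X (some 1) - MvPolynomial.X none * MvPolynomial.X (some 0)) :
      MvPolynomial (Option (Fin 4)) ℂ).totalDegree ≤ 3
    have h0 := MvPolynomial.totalDegree_mul (MvPolynomial.X (some 0) : MvPolynomial (Option (Fin 4)) ℂ)
      (MvPolynomial.X (some 1) - MvPolynomial.X none * MvPolynomial.X (some 0))
    have h1 := MvPolynomial.totalDegree_sub (MvPolynomial.X (some 1) : MvPolynomial (Option (Fin 4)) ℂ)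
      (MvPolynomial.X none * MvPolynomial.X (some 0))
    have h2 := deg_XX none (some 0)
    have h3 := deg_X (some 0)
    have h4 := deg_X (some 1)
    have h5 : max (MvPolynomial.X (some 1) : MvPolynomial (Option (Fin 4)) ℂ).totalDegree
      (MvPolynomial.X none * MvPolynomial.X (some 0) : MvPolynomial (Option (Fin 4)) ℂ).totalDegree ≤ 2 := max_le (by omega) h2
    omega
  · show (MvPolynomial.C tpi * (MvPolynomial.X (some 0) * MvPolynomial.X (some 2)) : MvPolynomial (Option (Fin 4)) ℂ).totalDegree ≤ 3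
    have := MvPolynomial.totalDegree_mul (MvPolynomial.C tpi : MvPolynomial (Option (Fin 4)) ℂ)
      (MvPolynomial.X (some 0) * MvPolynomial.X (some 2))
    rw [MvPolynomial.totalDegree_C, zero_add] at this
    have h1 := deg_XX (some 0) (some 2)
    omega

/-- the values -/
noncomputable def pz (s : ℝ) (j : Fin 3) : ℂ := MvPolynomial.aeval (p1 hJ s) (qJ j)

/-- the values in terms of `j`, `j'`, `j''` on the imaginary axis -/
noncomputable def zz (y : ℝ) : Fin 3 → ℂ :=
  ![Complex.I * (g1 y / g0 y : ℝ), ((-(y * g1 y / g0 y) : ℝ) : ℂ),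
      Complex.I / 2 * ((g1 y / g0 y - g2 y / g1 y : ℝ) : ℂ)]

lemma pz_eq {Y : ℝ} (h : ∀ y : ℝ, Y ≤ y → 0 < g0 y ∧ 0 < ev (g0 y) FF ∧
  g1 y = 2 * Real.pi * g0 y * ev (g0 y) FF ^ 2 ∧
  -Real.log (g0 y) * ev (g0 y) FF + ev (g0 y) GG = -(2 * Real.pi * y) * ev (g0 y) FF ∧
  g2 y = 4 * Real.pi ^ 2 * g0 y * (ev (g0 y) FF ^ 4 - 2 * ev (g0 y) FF ^ 3 * ev (g0 y) F1)) {y : ℝ} (hy : Y ≤ y) :
    pz (g0 y) = zz y := by
  obtain ⟨h0, hf, h1, h2, h3⟩ := h y hy
  set s := g0 y with hs
  set f := ev s FF with hfd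
  set g := ev s GG with hgd
  set f1 := ev s F1 with hf1
  have hpi := Real.pi_pos
  funext j
  unfold pz zz
  fin_cases j
  · have e1 : MvPolynomial.aeval (p1 hJ s) (qJ 0) = tpi * ((f : ℂ) * f) := by
      show MvPolynomial.aeval (p1 hJ s) (MvPolynomial.C tpi * (MvPolynomial.X (some 0) * MvPolynomial.X (some 0))) = _
      rw [map_mul, map_mul, MvPolynomial.algHom_C, MvPolynomial.aeval_X]
      rfl
    show MvPolynomial.aeval (p1 hJ s) (qJ 0) = Complex.I * ((g1 y / s : ℝ) : ℂ)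
    rw [e1, h1]
    have e2 : (2 * Real.pi * s * f ^ 2) / s = 2 * Real.pi * (f * f) := by field_simp
    rw [e2]
    unfold tpi
    push_cast
    ring
  · have e1 : MvPolynomial.aeval (p1 hJ s) (qJ 1) = ((f * (g - Real.log s * f) : ℝ) : ℂ) := by
      show MvPolynomial.aeval (p1 hJ s) (MvPolynomial.X (some 0) *
        (MvPolynomial.X (some 1) - MvPolynomial.X none * MvPolynomial.X (some 0))) = _
      rw [map_mul, map_sub, map_mul, MvPolynomial.aeval_X, MvPolynomial.aeval_X, MvPolynomial.aeval_X]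
      push_cast
      rfl
    show MvPolynomial.aeval (p1 hJ s) (qJ 1) = ((-(y * g1 y / s) : ℝ) : ℂ)
    rw [e1, h1]
    congr 1
    have e2 : g - Real.log s * f = -(2 * Real.pi * y) * f := by linarith
    rw [e2]
    field_simp
  · have e1 : MvPolynomial.aeval (p1 hJ s) (qJ 2) = tpi * ((f : ℂ) * f1) := by
      show MvPolynomial.aeval (p1 hJ s) (MvPolynomial.C tpi * (MvPolynomial.X (some 0) * MvPolynomial.X (some 2))) = _
      rw [map_mul, map_mul, MvPolynomial.algHom_C, MvPolynomial.aeval_X, MvPolynomial.aeval_X]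
      rfl
    show MvPolynomial.aeval (p1 hJ s) (qJ 2) = Complex.I / 2 * ((g1 y / s - g2 y / g1 y : ℝ) : ℂ)
    rw [e1]
    have e2 : g1 y / s - g2 y / g1 y = 4 * Real.pi * (f * f1) := by
      rw [h3, h1]
      have hs0 : s ≠ 0 := h0.ne'
      have hf0 : f ≠ 0 := hf.ne'
      have hp0 : Real.pi ≠ 0 := hpi.ne'
      field_simp
      ring
    rw [e2]
    unfold tpi
    push_cast
    ring

/-! ### density -/

lemma g0_large (τ : ℝ) : ∃ Y : ℝ, ∀ y, Y ≤ y → τ < g0 y := by
  obtain ⟨y0, hy0, h⟩ := Pool.Agent.TH21.MS.g0_log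
  refine ⟨max y0 (max 1 τ), fun y hy => ?_⟩
  have h1 := h y ((le_max_left _ _).trans hy)
  have h2 : 1 ≤ y := (le_max_left _ _).trans ((le_max_right _ _).trans hy)
  have h3 : τ ≤ y := (le_max_right _ _).trans ((le_max_right _ _).trans hy)
  have h4 := (abs_le.1 h1.2).1
  have h5 : y ≤ Real.log (g0 y) := by
    have := Real.pi_gt_three
    nlinarith
  have h6 := Real.add_one_le_exp (Real.log (g0 y))
  rw [Real.exp_log h1.1] at h6
  linarith

theorem dens (hAN : T_AN) (hZD : T_ZD) (τ : ℝ) (P : MvPolynomial (Option (Fin 3)) ℂ)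
    (hP : ∀ s : ℝ, τ < s → MvPolynomial.eval (fun o => o.elim (1 / (s : ℂ)) (pz s)) P = 0) : P = 0 := by
  obtain ⟨Y, hY1, hY⟩ := hAN
  obtain ⟨Y', hY'⟩ := g0_large τ
  set φ : Option (Fin 3) → Fin 4 := fun o => o.elim 0 Fin.succ with hφ
  have hinj : Function.Injective φ := by
    intro o o' h
    rcases o with _ | i <;> rcases o' with _ | i'
    · rfl
    · exact absurd h (Fin.succ_ne_zero i').symm
    · exact absurd h (Fin.succ_ne_zero i)
    · exact congrArg some (Fin.succ_injective _ h)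
  have h0 : MvPolynomial.rename φ P = 0 := by
    refine hZD (max Y Y') _ fun y hy => ?_
    rw [MvPolynomial.eval_rename]
    have h1 := hP (g0 y) (hY' y ((le_max_right _ _).trans hy))
    rw [pz_eq hY ((le_max_left _ _).trans hy)] at h1
    refine Eq.trans ?_ h1
    congr 1
    congr 1
    funext o
    rcases o with _ | i
    · rfl
    · fin_cases i <;> rfl
  exact MvPolynomial.rename_injective φ hinj (by rw [h0, map_zero])

/-- the curve -/
def SJ (τ : ℝ) : Set (ℂ × (Fin 3 → ℂ)) := {p | ∃ s : ℝ, τ < s ∧ p = (1 / (s : ℂ), pz s)}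

lemma SJ_dense (hAN : T_AN) (hZD : T_ZD) (τ : ℝ) (P : MvPolynomial (Option (Fin 3)) ℂ)
    (hP : ∀ p ∈ SJ τ, MvPolynomial.eval (fun o => o.elim p.1 p.2) P = 0) : P = 0 := by
  refine dens hAN hZD τ P ?_
  intro s hs
  have hm : (1 / (s : ℂ), pz s) ∈ SJ τ := ⟨s, hs, rfl⟩
  have h1 := hP (1 / (s : ℂ), pz s) hm
  exact h1

lemma pn_eq {k : ℕ} (s : Fin k → ℝ) : pn (fun _ : Fin k => hJ) (fun _ => qJ) s = fun v => pz (s v.1) v.2 := rfl

theorem fn_zero (hAN : T_AN) (hZD : T_ZD) {k : ℕ} {R : MvPolynomial (Σ _ : Fin k, Fin 3) (MvPolynomial (Fin k) ℂ)}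
    (hR : Fn (fun _ : Fin k => hJ) (fun _ => qJ) R) : R = 0 := by
  obtain ⟨τ, hτ⟩ := hR
  refine multi (SJ τ) (SJ_dense hAN hZD τ) R ?_
  intro p hp
  choose s hs hps using hp
  have h1 := hτ s hs
  rw [pn_eq] at h1
  have e : p = fun i => (1 / (s i : ℂ), pz (s i)) := funext hps
  rw [e]
  exact h1

end Pool.Agent.Y120.J
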