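import Pool.Agent.Y120.J.Pts
import Pool.Agent.Y120.R.Good

/-!
# The points with integral modular invariant: the counting theorem, from the parts
-/

set_option autoImplicit false

open Pool.Agent.TH21.MS (g0 g1 g2 jj)
open Pool.Agent.Y120.R

namespace Pool.Agent.Y120.J

section
variable {k : ℕ}

/-- the numerators for `k` points -/
noncomputable def nK (γ : Fin k → Matrix.SpecialLinearGroup (Fin 2) ℤ) (t : Fin k → ℤ) (v : Fin k × Fin 3) :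
    MvPolynomial (Σ _ : Fin k, Fin 3) ℤ :=
  MvPolynomial.rename (fun j => ⟨v.1, j⟩) (nn (γ v.1 0 0) (γ v.1 0 1) (γ v.1 1 0) (γ v.1 1 1) (t v.1) v.2)

/-- the denominators for `k` points -/
noncomputable def mK (γ : Fin k → Matrix.SpecialLinearGroup (Fin 2) ℤ) (v : Fin k × Fin 3) :
    MvPolynomial (Σ _ : Fin k, Fin 3) ℤ :=
  MvPolynomial.rename (fun j => ⟨v.1, j⟩) (mm (γ v.1 1 0) (γ v.1 1 1) v.2)

lemma nK_deg (γ : Fin k → Matrix.SpecialLinearGroup (Fin 2) ℤ) (t : Fin k → ℤ) (v : Fin k × Fin 3) :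
    (nK γ t v).totalDegree ≤ 8 := (MvPolynomial.totalDegree_rename_le _ _).trans (nn_deg _ _ _ _ _ _)

lemma mK_deg (γ : Fin k → Matrix.SpecialLinearGroup (Fin 2) ℤ) (v : Fin k × Fin 3) :
    (mK γ v).totalDegree ≤ 8 := (MvPolynomial.totalDegree_rename_le _ _).trans (mm_deg _ _ _)

lemma nK_eval (γ : Fin k → Matrix.SpecialLinearGroup (Fin 2) ℤ) (t : Fin k → ℤ) (Z : Fin k → Fin 3 → ℂ) (v : Fin k × Fin 3) :
    MvPolynomial.eval₂ (Int.castRingHom ℂ) (fun w : Σ _ : Fin k, Fin 3 => Z w.1 w.2) (nK γ t v) =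
      e2 (Z v.1) (nn (γ v.1 0 0) (γ v.1 0 1) (γ v.1 1 0) (γ v.1 1 1) (t v.1) v.2) := by
  unfold nK e2
  rw [MvPolynomial.eval₂_rename]
  rfl

lemma mK_eval (γ : Fin k → Matrix.SpecialLinearGroup (Fin 2) ℤ) (Z : Fin k → Fin 3 → ℂ) (v : Fin k × Fin 3) :
    MvPolynomial.eval₂ (Int.castRingHom ℂ) (fun w : Σ _ : Fin k, Fin 3 => Z w.1 w.2) (mK γ v) =
      e2 (Z v.1) (mm (γ v.1 1 0) (γ v.1 1 1) v.2) := by
  unfold mK e2
  rw [MvPolynomial.eval₂_rename]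
  rfl

/-- solving for the period functions -/
lemma solve {a b c d t : ℤ} (hdet : a * d - b * c = 1) (ht : t ≠ 0) {w p s : ℂ} (hw : (a : ℂ) - c * w ≠ 0) (hp : p ≠ 0) :
    ∃ Z : Fin 3 → ℂ, (∀ j, e2 Z (mm c d j) ≠ 0) ∧
      ∀ j, (![w, p, s] : Fin 3 → ℂ) j = e2 Z (nn a b c d t j) / e2 Z (mm c d j) := by
  have hdet' : (a : ℂ) * d - b * c = 1 := by exact_mod_cast hdet
  have htc : (t : ℂ) ≠ 0 := by exact_mod_cast ht
  set A : ℂ := (a : ℂ) - c * w with hA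
  set Z0 : ℂ := -(p * A ^ 2 / t) with hZ0
  have hZ00 : Z0 ≠ 0 := neg_ne_zero.2 (div_ne_zero (mul_ne_zero hp (pow_ne_zero 2 hw)) htc)
  set Z1 : ℂ := (d * w - b) / A * Z0 with hZ1
  set Z2 : ℂ := (Z0 - (s * A ^ 3 / t + 2 * c * Z0) * A / Z0) / 2 with hZ2
  have hu : (c : ℂ) * Z1 + d * Z0 = Z0 / A := by
    rw [hZ1]
    field_simp
    rw [hA]
    linear_combination hdet'
  have hn : (a : ℂ) * Z1 + b * Z0 = w * (Z0 / A) := by
    rw [hZ1]
    field_simp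
    rw [hA]
    linear_combination w * hdet'
  refine ⟨![Z0, Z1, Z2], fun j => ?_, fun j => ?_⟩
  · rw [e2_mm]
    fin_cases j
    · show (c : ℂ) * Z1 + d * Z0 ≠ 0
      rw [hu]
      exact div_ne_zero hZ00 hw
    · exact hZ00
    · exact pow_ne_zero 3 hZ00
  · rw [e2_mm, e2_nn]
    fin_cases j
    · show w = ((a : ℂ) * Z1 + b * Z0) / ((c : ℂ) * Z1 + d * Z0)
      rw [hu, hn, mul_div_assoc, div_self (div_ne_zero hZ00 hw), mul_one]
    · show p = (-t * ((c : ℂ) * Z1 + d * Z0) ^ 2) / Z0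
      rw [hu, eq_div_iff hZ00, div_pow]
      have h1 : Z0 * t = -(p * A ^ 2) := by
        rw [hZ0]
        field_simp
      field_simp
      linear_combination h1
    · show s = (t * ((c : ℂ) * Z1 + d * Z0) ^ 3 * (((c : ℂ) * Z1 + d * Z0) * (Z0 - 2 * Z2) - 2 * c * Z0)) / Z0 ^ 3
      rw [hu, eq_div_iff (pow_ne_zero 3 hZ00)]
      have h1 : Z0 / A * (Z0 - 2 * Z2) - 2 * c * Z0 = s * A ^ 3 / t := by
        rw [hZ2]
        field_simp
        ring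
      rw [h1]
      field_simp

/-- the substitution does not kill polynomials -/
theorem tr_ne {δ : ℕ} {F : MvPolynomial (Fin k × Fin 3) ℂ} (hF : F.totalDegree ≤ δ)
    (γ : Fin k → Matrix.SpecialLinearGroup (Fin 2) ℤ) (t : Fin k → ℤ) (ht : ∀ i, t i ≠ 0)
    (h0 : Tr δ (nK γ t) (mK γ) F = 0) : F = 0 := by
  classical
  have hdet : ∀ i, (γ i 0 0) * (γ i 1 1) - (γ i 0 1) * (γ i 1 0) = 1 := by
    intro i
    have h := (γ i).det_coe
    rw [Matrix.det_fin_two] at h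
    exact h
  set G : Fin k × Fin 3 → Set ℂ := fun v => ![{w | (γ v.1 0 0 : ℂ) - (γ v.1 1 0 : ℂ) * w ≠ 0}, {w | w ≠ 0}, Set.univ] v.2 with hG
  refine MvPolynomial.funext_set G ?_ ?_
  · rintro ⟨i, j⟩
    fin_cases j
    · show ({w : ℂ | (γ i 0 0 : ℂ) - (γ i 1 0 : ℂ) * w ≠ 0}).Infinite
      have h1 : ({w : ℂ | (γ i 0 0 : ℂ) - (γ i 1 0 : ℂ) * w ≠ 0})ᶜ.Finite := by
        refine Set.Subsingleton.finite ?_
        intro w hw w' hw'
        simp only [Set.mem_compl_iff, Set.mem_ofPred_eq, not_not] at hw hw'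
        have hc : (γ i 1 0 : ℂ) ≠ 0 := by
          intro hc
          rw [hc, zero_mul, sub_zero] at hw
          have h2 : ((γ i 0 0 : ℂ)) * (γ i 1 1 : ℂ) - (γ i 0 1 : ℂ) * (γ i 1 0 : ℂ) = 1 := by exact_mod_cast hdet i
          rw [hw, hc] at h2
          simp at h2
        have h3 : (γ i 1 0 : ℂ) * w = (γ i 1 0 : ℂ) * w' := by linear_combination hw' - hw
        exact mul_left_cancel₀ hc h3
      intro hfin
      exact Set.infinite_univ (α := ℂ) (by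
        rw [← Set.union_compl_self {w : ℂ | (γ i 0 0 : ℂ) - (γ i 1 0 : ℂ) * w ≠ 0}]
        exact hfin.union h1)
    · show ({w : ℂ | w ≠ 0}).Infinite
      intro hfin
      have h1 : ({w : ℂ | w ≠ 0})ᶜ.Finite := by
        refine Set.Subsingleton.finite ?_
        intro w hw w' hw'
        simp only [Set.mem_compl_iff, Set.mem_ofPred_eq, not_not] at hw hw'
        rw [hw, hw']
      exact Set.infinite_univ (α := ℂ) (by
        rw [← Set.union_compl_self {w : ℂ | w ≠ 0}]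
        exact hfin.union h1)
    · exact Set.infinite_univ
  · intro x hx
    rw [map_zero]
    have hs : ∀ i, ∃ Z : Fin 3 → ℂ, (∀ j, e2 Z (mm (γ i 1 0) (γ i 1 1) j) ≠ 0) ∧
        ∀ j, (![x (i, 0), x (i, 1), x (i, 2)] : Fin 3 → ℂ) j =
          e2 Z (nn (γ i 0 0) (γ i 0 1) (γ i 1 0) (γ i 1 1) (t i) j) / e2 Z (mm (γ i 1 0) (γ i 1 1) j) := by
      intro i
      have h1 : (γ i 0 0 : ℂ) - (γ i 1 0 : ℂ) * x (i, 0) ≠ 0 := hx (i, 0) (Set.mem_univ _)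
      have h2 : x (i, 1) ≠ 0 := hx (i, 1) (Set.mem_univ _)
      exact solve (hdet i) (ht i) h1 h2
    choose Z hZ hZx using hs
    have h1 := Tr_eval (n := nK γ t) (m := mK γ) hF (fun w : Σ _ : Fin k, Fin 3 => Z w.1 w.2) (fun v => by
      rw [mK_eval]
      exact hZ v.1 v.2)
    rw [h0, map_zero] at h1
    have h2 : (∏ v, MvPolynomial.eval₂ (Int.castRingHom ℂ) (fun w : Σ _ : Fin k, Fin 3 => Z w.1 w.2) (mK γ v) ^ δ) ≠ 0 := by
      refine Finset.prod_ne_zero_iff.2 fun v _ => pow_ne_zero _ ?_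
      rw [mK_eval]
      exact hZ v.1 v.2
    have h3 := (mul_eq_zero.1 h1.symm).resolve_left h2
    rw [← h3]
    congr 1
    congr 1
    funext v
    obtain ⟨i, j⟩ := v
    rw [nK_eval, mK_eval]
    refine Eq.trans ?_ (hZx i j)
    fin_cases j <;> rfl

end

/-- the counting theorem -/
theorem core (hAN : T_AN) (hZD : T_ZD) (hFD : T_FD) (hFAM : T_FAM) (hric : ∃ Y : ℝ, ∀ y, Y ≤ y → 0 < g1 y) (k δ D : ℕ) :
    ∃ c C : ℝ, 0 < c ∧ 0 ≤ C ∧ ∀ (V : Submodule ℚ ℂ) [Module.Finite ℚ V], Module.finrank ℚ V ≤ D →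
      ∀ (x : Fin k → ℕ) (N : ℕ), 1 ≤ N → ∀ S : Finset (Fin k → ℕ),
      (∀ t ∈ S, (∀ i, x i < t i ∧ t i ≤ x i + N) ∧ ∃ z : Fin k → UpperHalfPlane, (∀ i, jj (z i) = t i) ∧
        ∃ F : MvPolynomial (Fin k × Fin 3) ℂ, F ≠ 0 ∧ F.totalDegree ≤ δ ∧ (∀ s, F.coeff s ∈ V) ∧
          MvPolynomial.eval (fun v => jt (z v.1) v.2) F = 0) →
      (S.card : ℝ) ≤ C * (N : ℝ) ^ (k - 1) * ∑ i, (1 + N / ((x i : ℝ) + N) ^ c) := by
  classical
  obtain ⟨Y₁, hY₁, hY⟩ := id hAN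
  obtain ⟨Y₂, hY₂⟩ := hric
  obtain ⟨T, hT⟩ := hFD (max Y₁ Y₂)
  obtain ⟨w₀, hw₀⟩ := exists_nat_ge (max T 1)
  set d : ℕ := Fintype.card (Fin k × Fin 3) * (δ * 8) with hd
  obtain ⟨c, C, hc, hC, h1⟩ := relX' (k := k) (r := fun _ => 4) (ν := fun _ => Fin 3) (h := fun _ => hJ) d 3 D
    fun _ => hFAM (d * 3)
  refine ⟨c, C + (w₀ + 1), hc, by positivity, ?_⟩
  intro V _ hV x N hN S hS
  set S₁ := S.filter fun t => ∃ i, t i ≤ w₀ with hS₁
  set S₂ := S.filter fun t => ¬ ∃ i, t i ≤ w₀ with hS₂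
  have hcard : S.card = S₁.card + S₂.card := (Finset.card_filter_add_card_filter_not _).symm
  have hb₁ : S₁.card ≤ k * (w₀ + 1) * N ^ (k - 1) := small w₀ N x S₁ fun t ht =>
    ⟨(hS t (Finset.mem_filter.1 ht).1).1, (Finset.mem_filter.1 ht).2⟩
  have hb₂ : (S₂.card : ℝ) ≤ C * (N : ℝ) ^ (k - 1) * ∑ i, (1 + N / ((x i : ℝ) + N) ^ c) := by
    refine h1 (fun _ => qJ) (fun _ j => qJ_deg j) V hV x N hN S₂ fun t ht => ?_
    obtain ⟨htS, hbig⟩ := Finset.mem_filter.1 ht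
    obtain ⟨hbox, z, hz, F, hF0, hFd, hFV, hFz⟩ := hS t htS
    push Not at hbig
    have hti : ∀ i, T ≤ (t i : ℝ) ∧ 1 ≤ t i := by
      intro i
      have h2 : (w₀ : ℝ) < t i := by exact_mod_cast hbig i
      refine ⟨(le_max_left T 1).trans (hw₀.trans h2.le), ?_⟩
      have h3 : (1 : ℝ) ≤ t i := (le_max_right T 1).trans (hw₀.trans h2.le)
      exact_mod_cast h3
    have hpt : ∀ i, ∃ (γ : Matrix.SpecialLinearGroup (Fin 2) ℤ) (y : ℝ) (hy : 0 < y), max Y₁ Y₂ ≤ y ∧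
        z i = γ • (⟨Complex.I * y, by simpa using hy⟩ : UpperHalfPlane) ∧ g0 y = (t i : ℝ) := fun i =>
      hT (z i) (t i) (hti i).1 (by rw [hz i]; push_cast; rfl)
    choose γ y hy0 hy hγ hyt using hpt
    have hpts : ∀ i, (∀ j, e2 (zz (y i)) (mm (γ i 1 0) (γ i 1 1) j) ≠ 0) ∧
        ∀ j, jt (z i) j = e2 (zz (y i)) (nn (γ i 0 0) (γ i 0 1) (γ i 1 0) (γ i 1 1) (t i) j) /
          e2 (zz (y i)) (mm (γ i 1 0) (γ i 1 1) j) := fun i =>
      pts (hy0 i) (hY (y i) ((le_max_left _ _).trans (hy i))).1 (hY₂ (y i) ((le_max_right _ _).trans (hy i)))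
        (t := (t i : ℤ)) (by rw [hyt i]; push_cast; rfl) (γ i) (hγ i)
    have hpn : pn (fun _ : Fin k => hJ) (fun _ => qJ) (fun i => (t i : ℝ)) =
        fun w : Σ _ : Fin k, Fin 3 => zz (y w.1) w.2 := by
      rw [pn_eq]
      funext w
      rw [← hyt w.1, pz_eq hY ((le_max_left _ _).trans (hy w.1))]
    refine ⟨hbox, Tr δ (nK γ fun i => (t i : ℤ)) (mK γ) F, Tr_deg (nK_deg γ _) (mK_deg γ) hFd, Tr_mem hFV, ?_, ?_⟩
    · rw [hpn, Tr_eval hFd (fun w : Σ _ : Fin k, Fin 3 => zz (y w.1) w.2) fun v => by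
        rw [mK_eval γ (fun i => zz (y i))]
        exact (hpts v.1).1 v.2]
      have e1 : (fun v : Fin k × Fin 3 => MvPolynomial.eval₂ (Int.castRingHom ℂ) (fun w : Σ _ : Fin k, Fin 3 => zz (y w.1) w.2)
          (nK γ (fun i => (t i : ℤ)) v) / MvPolynomial.eval₂ (Int.castRingHom ℂ) (fun w : Σ _ : Fin k, Fin 3 => zz (y w.1) w.2)
          (mK γ v)) = fun v => jt (z v.1) v.2 := by
        funext v
        rw [mK_eval γ (fun i => zz (y i)), nK_eval γ _ (fun i => zz (y i)), (hpts v.1).2 v.2]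
      rw [e1, hFz, mul_zero]
    · rintro ⟨R, -, hR, hRF⟩
      rw [fn_zero hAN hZD hR, map_zero] at hRF
      exact hF0 (tr_ne hFd γ (fun i => (t i : ℤ)) (fun i => by
        have := (hti i).2
        omega) hRF.symm)
  have hN1 : (1 : ℝ) ≤ N := by exact_mod_cast hN
  have hk : (k : ℝ) ≤ ∑ i, (1 + (N : ℝ) / ((x i : ℝ) + N) ^ c) := by
    have h1 : ∑ _i : Fin k, (1 : ℝ) ≤ ∑ i, (1 + (N : ℝ) / ((x i : ℝ) + N) ^ c) := by
      refine Finset.sum_le_sum fun i _ => ?_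
      have : 0 ≤ (N : ℝ) / ((x i : ℝ) + N) ^ c := by positivity
      linarith
    rw [Finset.sum_const, Finset.card_univ, Fintype.card_fin, nsmul_eq_mul, mul_one] at h1
    exact h1
  have e2 : (S₁.card : ℝ) ≤ k * (w₀ + 1) * (N : ℝ) ^ (k - 1) := by exact_mod_cast hb₁
  have e4 : (k : ℝ) * (w₀ + 1) * (N : ℝ) ^ (k - 1) ≤ (w₀ + 1) * (N : ℝ) ^ (k - 1) * ∑ i, (1 + (N : ℝ) / ((x i : ℝ) + N) ^ c) := by
    have : (k : ℝ) * (w₀ + 1) * (N : ℝ) ^ (k - 1) = (w₀ + 1) * (N : ℝ) ^ (k - 1) * k := by ring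
    rw [this]
    exact mul_le_mul_of_nonneg_left hk (by positivity)
  rw [hcard]
  push_cast
  calc (S₁.card : ℝ) + S₂.card ≤ (w₀ + 1) * (N : ℝ) ^ (k - 1) * ∑ i, (1 + (N : ℝ) / ((x i : ℝ) + N) ^ c) +
        C * (N : ℝ) ^ (k - 1) * ∑ i, (1 + (N : ℝ) / ((x i : ℝ) + N) ^ c) := by linarith
    _ = _ := by ring

end Pool.Agent.Y120.J
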