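import Pool.Agent.Y120.J.Core2

/-!
# The counting theorem for tuples of integers of any signs
-/

set_option autoImplicit false

open Pool.Agent.TH21.MS (g0 g1 g2 jj)
open Pool.Agent.Y120.R

namespace Pool.Agent.Y120.J

/-- the tuples with a relation -/
def Bd (k δ : ℕ) (V : Submodule ℚ ℂ) (t : Fin k → ℤ) : Prop :=
  ∃ z : Fin k → UpperHalfPlane, (∀ i, jj (z i) = t i) ∧
    ∃ F : MvPolynomial (Fin k × Fin 3) ℂ, F ≠ 0 ∧ F.totalDegree ≤ δ ∧ (∀ s, F.coeff s ∈ V) ∧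
      MvPolynomial.eval (fun v => jt (z v.1) v.2) F = 0

lemma exists_lower {ι : Type} [Fintype ι] (c : ι → ℝ) (hc : ∀ i, 0 < c i) : ∃ c₀ : ℝ, 0 < c₀ ∧ ∀ i, c₀ ≤ c i := by
  classical
  rcases isEmpty_or_nonempty ι with h | h
  · exact ⟨1, one_pos, fun i => (h.false i).elim⟩
  · obtain ⟨i, hi⟩ := Finite.exists_min c
    exact ⟨c i, hc i, hi⟩

theorem coreZ (hDN : ∀ s, T_DN s) (hPT : ∀ s, T_PT s) (hFM : ∀ s, T_FM s) (k δ D : ℕ) :
    ∃ c C : ℝ, 0 < c ∧ 0 ≤ C ∧ ∀ (V : Submodule ℚ ℂ) [Module.Finite ℚ V], Module.finrank ℚ V ≤ D →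
      ∀ (x : Fin k → ℕ) (N : ℕ), 1 ≤ N → ∀ S : Finset (Fin k → ℤ),
      (∀ t ∈ S, (∀ i, (x i : ℤ) < |t i| ∧ |t i| ≤ x i + N) ∧ Bd k δ V t) →
      (S.card : ℝ) ≤ C * (N : ℝ) ^ (k - 1) * ∑ i, (1 + N / ((x i : ℝ) + N) ^ c) := by
  classical
  choose c C hc hC h1 using coreS hDN hPT hFM k δ D
  obtain ⟨c₀, hc₀, hcc⟩ := exists_lower c hc
  refine ⟨c₀, ∑ s, C s, hc₀, Finset.sum_nonneg fun s _ => hC s, ?_⟩
  intro V _ hV x N hN S hbad
  set f : (Fin k → ℤ) → Fin k → ℕ := fun t i => (t i).natAbs with hf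
  set Ss : (Fin k → Bool) → Finset (Fin k → ℤ) := fun s => S.filter fun t => ∀ i, t i = si (s i) * ((t i).natAbs : ℤ) with hSs
  have hcov : S ⊆ Finset.univ.biUnion Ss := by
    intro t ht
    refine Finset.mem_biUnion.2 ⟨fun i => decide (0 < t i), Finset.mem_univ _, Finset.mem_filter.2 ⟨ht, fun i => ?_⟩⟩
    unfold si
    by_cases h0 : 0 < t i
    · simp only [h0, decide_true, if_true, one_mul]
      omega
    · simp only [h0, decide_false]
      simp only [Bool.false_eq_true, if_false]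
      omega
  have hpos : (0 : ℝ) ≤ (N : ℝ) ^ (k - 1) := by positivity
  have hs : ∀ s, ((Ss s).card : ℝ) ≤ C s * (N : ℝ) ^ (k - 1) * ∑ i, (1 + N / ((x i : ℝ) + N) ^ c₀) := by
    intro s
    have hinj : Set.InjOn f (Ss s : Set (Fin k → ℤ)) := by
      intro t ht t' ht' h
      have h2 := (Finset.mem_filter.1 (Finset.mem_coe.1 ht)).2
      have h2' := (Finset.mem_filter.1 (Finset.mem_coe.1 ht')).2
      funext i
      rw [h2 i, h2' i]
      have h3 : (t i).natAbs = (t' i).natAbs := congrFun h i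
      rw [h3]
    rw [← Finset.card_image_of_injOn hinj]
    have h2 := h1 s V hV x N hN ((Ss s).image f) (by
      intro u hu
      obtain ⟨t, ht, rfl⟩ := Finset.mem_image.1 hu
      obtain ⟨htS, hsg⟩ := Finset.mem_filter.1 ht
      obtain ⟨hbox, z, hz, F, hF⟩ := hbad t htS
      refine ⟨fun i => ?_, z, fun i => ?_, F, hF⟩
      · have h3 := hbox i
        show x i < (t i).natAbs ∧ (t i).natAbs ≤ x i + N
        rw [Int.abs_eq_natAbs] at h3
        omega
      · rw [hz i]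
        have h3 := hsg i
        have h4 : ((t i : ℤ) : ℂ) = ((si (s i) * ((t i).natAbs : ℤ) : ℤ) : ℂ) := by rw [← h3]
        rw [h4, Int.cast_mul, Int.cast_natCast])
    refine h2.trans ?_
    refine mul_le_mul_of_nonneg_left ?_ (mul_nonneg (hC s) hpos)
    refine Finset.sum_le_sum fun i _ => ?_
    have hN1 : (1 : ℝ) ≤ N := by exact_mod_cast hN
    have hb : (1 : ℝ) ≤ (x i : ℝ) + N := by
      have : (0 : ℝ) ≤ x i := Nat.cast_nonneg _
      linarith
    have h5 : ((x i : ℝ) + N) ^ c₀ ≤ ((x i : ℝ) + N) ^ c s := Real.rpow_le_rpow_of_exponent_le hb (hcc s)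
    have h6 : 0 < ((x i : ℝ) + N) ^ c₀ := Real.rpow_pos_of_pos (by linarith) _
    have h7 : (N : ℝ) / ((x i : ℝ) + N) ^ c s ≤ N / ((x i : ℝ) + N) ^ c₀ :=
      div_le_div_of_nonneg_left (by linarith) h6 h5
    linarith
  have h2 : (S.card : ℝ) ≤ ∑ s, ((Ss s).card : ℝ) := by
    have h3 := (Finset.card_le_card hcov).trans Finset.card_biUnion_le
    exact_mod_cast h3
  refine h2.trans ((Finset.sum_le_sum fun s _ => hs s).trans (le_of_eq ?_))
  rw [← Finset.sum_mul, ← Finset.sum_mul]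

end Pool.Agent.Y120.J
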