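import Mathlib
import Pool.Agent.TH21.MS.JDer
import Pool.Agent.Y113.P.SD

/-!
# The modular invariant and the hypergeometric equation at infinity: definitions and statements

`X = 1 / j`. The solution `F = (1 - 1728 X)^(1/4) 2F1(1/12, 5/12; 1; 1728 X)` satisfies `F (1 / j) ^ 2 = E_6 / E_4 = - D j / j`
and the second solution `F log X + G` gives `2 π i z = log X + G / F`. Here `θ = X d/dX` and
`(1 - 1728 X) ^ 2 θ ^ 2 F = X (82944 X - 372) F`.
-/

set_option autoImplicit false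

open PowerSeries Filter Topology
open scoped UpperHalfPlane ModularForm

namespace Pool.Agent.Y120.J

/-! ### the power series -/

/-- the coefficients of `2F1(1/12, 5/12; 1; 1728 X)` -/
noncomputable def fa (n : ℕ) : ℚ := ∏ l ∈ Finset.range n, ((12 * (l : ℚ) + 1) * (12 * (l : ℚ) + 5) * 12 / ((l : ℚ) + 1) ^ 2)

/-- the derivative with respect to the exponent -/
noncomputable def fb (n : ℕ) : ℚ := ∑ l ∈ Finset.range n, (12 / (12 * (l : ℚ) + 1) + 12 / (12 * (l : ℚ) + 5) - 2 / ((l : ℚ) + 1))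

/-- the coefficients of `(1 - 1728 X)^(1/4)` -/
noncomputable def fu (n : ℕ) : ℚ := ∏ l ∈ Finset.range n, (432 * (4 * (l : ℚ) - 1) / ((l : ℚ) + 1))

/-- the holomorphic solution -/
noncomputable def FF : ℚ⟦X⟧ := mk fu * mk fa

/-- the holomorphic part of the logarithmic solution -/
noncomputable def GG : ℚ⟦X⟧ := mk fu * mk fun n => fa n * fb n

/-- `θ F` -/
noncomputable def F1 : ℚ⟦X⟧ := X * d⁄dX ℚ FF

/-- `θ G + F` -/
noncomputable def G1 : ℚ⟦X⟧ := X * d⁄dX ℚ GG + FF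

/-- `(1 - 1728 X) ^ 2` -/
noncomputable def T1 : Polynomial ℤ := (1 - 1728 * Polynomial.X) ^ 2

/-- `X (82944 X - 372)` -/
noncomputable def Q1 : Polynomial ℤ := Polynomial.X * (82944 * Polynomial.X - 372)

open Pool.Agent.Y113 in
/-- the differential equations -/
def T_ODE : Prop := ps T1 * (X * d⁄dX ℚ F1) = ps Q1 * FF ∧ ps T1 * (X * d⁄dX ℚ G1 + F1) = ps Q1 * GG ∧
  FF * G1 - F1 * GG = 1

open Pool.Agent.Y113 in
/-- size and denominators -/
def T_SD : Prop := SDc FF ∧ SDc GG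

/-! ### modular forms -/

open Derivative EisensteinSeries ModularForm in
/-- Ramanujan's differential equations for `E_4` and `E_6` -/
def T_RAM46 : Prop := ∀ z : ℍ,
  normalizedDerivOfComplex (fun w => E₄ w) z = 3⁻¹ * (E2 z * E₄ z - E₆ z) ∧
  normalizedDerivOfComplex (fun w => E₆ w) z = 2⁻¹ * (E2 z * E₆ z - E₄ z ^ 2)

open Derivative EisensteinSeries ModularForm in
/-- Ramanujan's differential equation for `E_2` -/
def T_RAM2 : Prop := ∀ z : ℍ, normalizedDerivOfComplex E2 z = 12⁻¹ * (E2 z ^ 2 - E₄ z)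

open Pool.Agent.TH21.MS (g0 g1 g2)

/-- `σ = D r / (2 r)`, `r = - D j / j`, on the imaginary axis -/
noncomputable def sg (y : ℝ) : ℝ := -(1 / (4 * Real.pi)) * (g2 y / g1 y - g1 y / g0 y)

/-- the differential equation of third order of `j` on the imaginary axis, in the form `D σ = σ ^ 2 + r ^ 2 q (1 / j)` with
`D = - (1 / 2 π) d/dy` and `q = X (82944 X - 372) / (1 - 1728 X) ^ 2` -/
def T_RIC : Prop := ∃ Y : ℝ, 1 ≤ Y ∧ ∀ y : ℝ, Y ≤ y → 1728 < g0 y ∧ 0 < g1 y ∧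
  HasDerivAt sg (-(2 * Real.pi) * (sg y ^ 2 + (g1 y / (2 * Real.pi * g0 y)) ^ 2 *
    ((1 / g0 y) * (82944 * (1 / g0 y) - 372) / (1 - 1728 * (1 / g0 y)) ^ 2))) y

open Pool.Agent.Y113 in
/-- the values at `X = 1 / j` on the imaginary axis -/
def T_AN : Prop := ∃ Y : ℝ, 1 ≤ Y ∧ ∀ y : ℝ, Y ≤ y → 0 < g0 y ∧ 0 < ev (g0 y) FF ∧
  g1 y = 2 * Real.pi * g0 y * ev (g0 y) FF ^ 2 ∧
  -Real.log (g0 y) * ev (g0 y) FF + ev (g0 y) GG = -(2 * Real.pi * y) * ev (g0 y) FF ∧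
  g2 y = 4 * Real.pi ^ 2 * g0 y * (ev (g0 y) FF ^ 4 - 2 * ev (g0 y) FF ^ 3 * ev (g0 y) F1)

/-- the points `(1 / j, i j' / j, - y j' / j, (i / 2) (j' / j - j'' / j'))` on the imaginary axis (derivatives with respect to
`y`) are Zariski dense in the space -/
def T_ZD : Prop := ∀ (Y : ℝ) (P : MvPolynomial (Fin 4) ℂ), (∀ y : ℝ, Y ≤ y → MvPolynomial.eval
    ![1 / (g0 y : ℂ), Complex.I * (g1 y / g0 y : ℝ), ((-(y * g1 y / g0 y) : ℝ) : ℂ),
      Complex.I / 2 * ((g1 y / g0 y - g2 y / g1 y : ℝ) : ℂ)] P = 0) → P = 0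

/-- the points of the upper half-plane where `j` is real and large are equivalent to points of the imaginary axis -/
def T_FD : Prop := ∀ Y : ℝ, ∃ T : ℝ, ∀ z : ℍ, ∀ t : ℝ, T ≤ t → Pool.Agent.TH21.MS.jj z = t →
  ∃ (γ : Matrix.SpecialLinearGroup (Fin 2) ℤ) (y : ℝ) (hy : 0 < y), Y ≤ y ∧
    z = γ • (⟨Complex.I * y, by simpa using hy⟩ : ℍ) ∧ g0 y = t

end Pool.Agent.Y120.J
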