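import Pool.Agent.Y120.H.Res

/-!
# Windows: statements
-/

set_option autoImplicit false

open PowerSeries Pool.Agent.Y113 Pool.Agent.Y120.GF Pool.Agent.Y120.GH

namespace Pool.Agent.Y120.J

/-- in every short window, all separated `k`-tuples outside a bounded set are good, for the shifts of a family -/
def T_W1 : Prop := ∀ (σ : Type) [Fintype σ] (R : ℕ) (F : ℕ → σ → ℚ⟦X⟧) (Tg : ℕ → Polynomial ℤ) (q₀ E₀ : ℕ) (b₀ : σ),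
  FamR R F Tg q₀ E₀ b₀ → ∀ D k : ℕ, ∃ E M : ℕ, ∀ H t : ℕ, (H + 2) ^ E ≤ t →
    ∀ (V : Submodule ℚ ℂ) [Module.Finite ℚ V], Module.finrank ℚ V ≤ D → ∃ S : Finset ℕ, S.card ≤ M ∧
      ∀ g : Fin k → ℕ, SepR R g → (∀ i, g i ≤ H ∧ g i ∉ S) →
        ¬ Bad V fun b : Fin k → σ => ∏ i, ((ev t (F (g i) (b i)) : ℝ) : ℂ)

/-- the Taylor expansion in several variables -/
def T_W2 : Prop := ∀ (κ : Type) [Fintype κ] (n k D : ℕ) (V : Submodule ℚ ℂ) [Module.Finite ℚ V], Module.finrank ℚ V ≤ D →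
  ∀ ℓ : ℂ, ∃ V' : Submodule ℚ ℂ, Module.Finite ℚ V' ∧ Module.finrank ℚ V' ≤ (n + 1) ^ k * D ∧
    ∀ (Q : Fin k → ℂ) (L : Fin k → κ → ℂ),
      Bad V (fun b : Fin k → κ × Fin (n + 1) => ∏ i, (L i (b i).1 * (ℓ + Q i) ^ ((b i).2 : ℕ))) →
      Bad V' fun b : Fin k → κ × Fin (n + 1) => ∏ i, (L i (b i).1 * (1 / (((b i).2 : ℕ).factorial : ℂ) * Q i ^ ((b i).2 : ℕ)))

/-- the window property of a sequence of vectors -/
def WinP {σ : Type} [Fintype σ] (x : ℕ → σ → ℂ) : Prop := ∃ G₀ : ℕ, ∀ D k : ℕ, ∃ E M : ℕ, ∀ H t : ℕ, (H + 2) ^ E ≤ t →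
  ∀ (V : Submodule ℚ ℂ) [Module.Finite ℚ V], Module.finrank ℚ V ≤ D → ∃ S : Finset ℕ, S.card ≤ M ∧
    ∀ g : Fin k → ℕ, (∀ i j, i ≠ j → g i + G₀ ≤ g j ∨ g j + G₀ ≤ g i) → (∀ i, g i ≤ H ∧ g i ∉ S) →
      ¬ Bad V fun b : Fin k → σ => ∏ i, x (t - g i) (b i)

/-- the window property of one family -/
def T_W3 : Prop := ∀ (κ : Type) [Fintype κ] (q : ℕ) (C : ℝ) (T : Polynomial ℤ) (y : κ → ℚ⟦X⟧), GSys q C T y → T ≠ 0 →
  ∀ β₀ : κ, y β₀ = 1 → ∀ n R : ℕ, (∀ (k : ℕ) (g : Fin k → ℕ), SepR R g →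
    LinearIndependent (Polynomial ℚ) (fun b : Fin k → κ × Fin (n + 1) => ∏ l, Fg (n + 1) y (g l) (b l))) →
  WinP (XF n y)

/-- the window property of the family of the monomials -/
def T_W4 : Prop := ∀ (r : ℕ) (h : Fin r → ℚ⟦X⟧) (T : Polynomial ℤ) (A : Fin r → Fin r → Polynomial ℤ), T ≠ 0 →
  (∀ i, ps T * d⁄dX ℚ (h i) = ∑ j, ps (A i j) * h j) → ∀ (q : ℕ) (C : ℝ), GSys q C T h → QU0 T A → ∀ δ : ℕ,
    ∃ (B : Finset (Fin δ → Option (Fin r))) (a : Polynomial ℤ) (M : (Fin δ → Option (Fin r)) → B → Polynomial ℤ),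
      a ≠ 0 ∧ (∀ b, ps a * yw h b = ∑ β, ps (M b β) * yw h β.1) ∧ WinP (XF δ fun β : B => yw h β.1)

/-- the data of a family for windows -/
def FamW (δ : ℕ) {r : ℕ} (h : Fin r → ℚ⟦X⟧) : Prop :=
  (∃ C : ℝ, ∀ j m, |((coeff m (h j) : ℚ) : ℝ)| ≤ C ^ (m + 1)) ∧
  ∃ (B : Finset (Fin δ → Option (Fin r))) (a : Polynomial ℤ) (M : (Fin δ → Option (Fin r)) → B → Polynomial ℤ),
    a ≠ 0 ∧ (∀ b, ps a * yw h b = ∑ β, ps (M b β) * yw h β.1) ∧ WinP (XF δ fun β : B => yw h β.1)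

end Pool.Agent.Y120.J
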