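import Pool.Agent.Y120.J.Tns
import Pool.Agent.Y120.R.Gx

/-!
# The monomials in the period functions are independent combinations of the basis
-/

set_option autoImplicit false

open PowerSeries Pool.Agent.Y113 Pool.Agent.Y120.GF Pool.Agent.Y120.GH Pool.Agent.Y120.R

namespace Pool.Agent.Y120.J

section
variable {r n : ℕ}

/-- exponents in one block -/
noncomputable def jxe {d : ℕ} : Jx (Fin n) d ≃ Jx (Σ _ : Fin 1, Fin n) d where
  toFun m := ⟨fun v => m.1 v.2, by
    rw [Fintype.sum_sigma, Fin.sum_univ_one]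
    exact m.2⟩
  invFun m := ⟨fun v => m.1 ⟨0, v⟩, by
    have h := m.2
    rw [Fintype.sum_sigma, Fin.sum_univ_one] at h
    exact h⟩
  left_inv m := rfl
  right_inv m := by
    apply Subtype.ext
    funext v
    obtain ⟨i, v⟩ := v
    rw [Subsingleton.elim i 0]

theorem dt_fam {d e : ℕ} {h : Fin r → ℚ⟦X⟧} {q : Fin n → MvPolynomial (Option (Fin r)) ℂ} (hq : ∀ j, (q j).totalDegree ≤ e)
    {C : ℝ} (hC : ∀ j m, |((coeff m (h j) : ℚ) : ℝ)| ≤ C ^ (m + 1)) {B : Finset (Fin (d * e) → Option (Fin r))}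
    {a : Polynomial ℤ} {M : (Fin (d * e) → Option (Fin r)) → B → Polynomial ℤ} (ha : a ≠ 0)
    (hM : ∀ b, ps a * yw h b = ∑ β, ps (M b β) * yw h β.1)
    (hR : ∀ R : MvPolynomial (Σ _ : Fin 1, Fin n) (MvPolynomial (Fin 1) ℂ),
      Fn (fun _ : Fin 1 => h) (fun _ => q) R → R = 0) :
    ∃ (W : Finset ℂ) (t₀ : ℕ), ∀ t : ℕ, t₀ < t →
      Dt d W (XF (d * e) (fun β : B => yw h β.1) t) fun j => MvPolynomial.aeval (p1 h t) (q j) := by
  classical
  set r' : Fin 1 → ℕ := fun _ => r with hr'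
  set n' : Fin 1 → ℕ := fun _ => n with hn'
  set h' : ∀ i : Fin 1, Fin (r' i) → ℚ⟦X⟧ := fun _ => h with hh'
  set q' : ∀ i : Fin 1, Fin (n' i) → MvPolynomial (Option (Fin (r' i))) ℂ := fun _ => q with hq'
  set B' : ∀ i : Fin 1, Finset (Fin (d * e) → Option (Fin (r' i))) := fun _ => B with hB'
  set a' : Fin 1 → Polynomial ℤ := fun _ => a with ha'
  set M' : ∀ i : Fin 1, (Fin (d * e) → Option (Fin (r' i))) → B' i → Polynomial ℤ := fun _ => M with hM'
  set T : Finset ℂ := insert 0 (Finset.univ.biUnion fun j : Jx (Σ i, Fin (n' i)) d =>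
    (Z q' j).support.image fun s => (Z q' j).coeff s) with hT
  have hmem : ∀ (j : Jx (Σ i, Fin (n' i)) d) (s : Ex r'), (Z q' j).coeff s ∈ (T : Set ℂ) := by
    intro j s
    by_cases h0 : (Z q' j).coeff s = 0
    · rw [h0]
      exact Finset.mem_coe.2 (Finset.mem_insert_self _ _)
    · refine Finset.mem_coe.2 (Finset.mem_insert_of_mem (Finset.mem_biUnion.2 ⟨j, Finset.mem_univ _, ?_⟩))
      exact Finset.mem_image.2 ⟨s, MvPolynomial.mem_support_iff.2 h0, rfl⟩
  obtain ⟨d₀, hd₀⟩ : ∃ d₀ : ℕ, ∀ b β, (M b β).natDegree ≤ d₀ := by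
    refine ⟨∑ b, ∑ β, (M b β).natDegree, fun b β => ?_⟩
    refine le_trans ?_ (Finset.single_le_sum (f := fun b => ∑ β, (M b β).natDegree) (fun _ _ => Nat.zero_le _)
      (Finset.mem_univ b))
    exact Finset.single_le_sum (f := fun β => (M b β).natDegree) (fun _ _ => Nat.zero_le _) (Finset.mem_univ β)
  set g : Jx (Σ i, Fin (n' i)) d → Ex r' → Unit → ℂ := fun j s _ => (Z q' j).coeff s with hg
  obtain ⟨Δ, hΔ, -, hlift⟩ := lift (K := ℂ) (mat M' q' g) (d := 1 * d₀) (fun pl j => mat_deg M' q' (fun _ => hd₀) pl j)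
  -- the polynomial in one variable
  set Δ₁ : Polynomial ℂ := MvPolynomial.aeval (fun _ => Polynomial.X) Δ with hΔ₁
  have hev : ∀ y : ℂ, Polynomial.eval y Δ₁ = MvPolynomial.eval (fun _ => y) Δ := by
    intro y
    rw [hΔ₁, ← Polynomial.coe_evalRingHom, MvPolynomial.aeval_def, MvPolynomial.hom_eval₂]
    rw [MvPolynomial.eval, MvPolynomial.coe_eval₂Hom]
    congr 1
    · ext x
      simp
    · funext i
      simp
  have hΔ₁0 : Δ₁ ≠ 0 := by
    intro h0
    apply hΔ
    refine MvPolynomial.funext fun y => ?_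
    have h1 : y = fun _ => y 0 := by
      funext i
      rw [Subsingleton.elim i 0]
    rw [map_zero, h1, ← hev, h0, Polynomial.eval_zero]
  obtain ⟨t₁, ht₁⟩ : ∃ t₁ : ℕ, ∀ t : ℕ, t₁ < t → MvPolynomial.eval (fun _ : Fin 1 => 1 / (t : ℂ)) Δ ≠ 0 := by
    have hfin : {t : ℕ | MvPolynomial.eval (fun _ : Fin 1 => 1 / (t : ℂ)) Δ = 0}.Finite := by
      have h1 : (Δ₁.roots.toFinset : Set ℂ).Finite := Finset.finite_toSet _
      refine (h1.preimage (f := fun t : ℕ => 1 / (t : ℂ)) ?_).subset ?_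
      · intro t _ t' _ htt
        have h2 : (1 : ℂ) / t = 1 / t' := htt
        rw [one_div, one_div, inv_inj] at h2
        exact_mod_cast h2
      · intro t ht
        simp only [Set.mem_preimage, Finset.mem_coe, Multiset.mem_toFinset]
        rw [Polynomial.mem_roots hΔ₁0, Polynomial.IsRoot.def, hev]
        exact ht
    obtain ⟨t₁, ht₁⟩ := hfin.bddAbove
    refine ⟨t₁, fun t ht h0 => ?_⟩
    have h2 := ht₁ h0
    omega
  obtain ⟨c₁, hc₁⟩ := no_roots ha
  obtain ⟨w, hw⟩ := exists_nat_ge |C|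
  have hh : ∀ i j m, |((coeff m (h' i j) : ℚ) : ℝ)| ≤ (fun _ : Fin 1 => |C|) i ^ (m + 1) := fun i j m => by
    refine (hC j m).trans ?_
    show C ^ (m + 1) ≤ |C| ^ (m + 1)
    rw [← abs_pow]
    exact le_abs_self _
  refine ⟨T, t₁ + c₁ + w, fun t ht => ?_⟩
  have htw : |C| < (t : ℝ) := lt_of_le_of_lt hw (by exact_mod_cast (by omega))
  have ha0 : ∀ s : ℝ, (t : ℝ) ≤ s → Polynomial.aeval (1 / s) a ≠ 0 := fun s hs => hc₁ s (by
    have h1 : ((c₁ : ℕ) : ℝ) < t := by exact_mod_cast (by omega)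
    exact lt_of_lt_of_le h1 hs)
  refine ⟨Polynomial.aeval (1 / (t : ℂ)) a, fun p m => MvPolynomial.eval (fun _ : Fin 1 => 1 / (t : ℂ))
    (cc M' (Z q' (jxe m)) fun _ => p), ?_, ?_, ?_, ?_⟩
  · have h1 := aeval_cast (t : ℝ) a
    push_cast at h1
    rw [h1]
    exact_mod_cast ha0 t le_rfl
  · intro p m
    exact cc_mem (M := M') (V := Submodule.span ℚ (T : Set ℂ)) (fun s => Submodule.subset_span (hmem _ s)) (fun _ => t) fun _ => p
  · intro m
    have h1 := expand_real (h := h') a' M' (fun _ => hM) (C := fun _ => |C|) (fun _ => abs_nonneg _) hh (s := fun _ => (t : ℝ))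
      (fun _ => htw) (Z q' (jxe m)) (Z_deg q' (e := e) (fun _ => hq) (jxe m))
    rw [Fin.prod_univ_one] at h1
    have h2 : MvPolynomial.aeval (vp h' fun _ : Fin 1 => (t : ℝ)) (Z q' (jxe m)) =
        ∏ v, (MvPolynomial.aeval (p1 h t) (q v)) ^ (m.1 v : ℕ) := by
      unfold Z
      rw [map_prod, Fintype.prod_sigma, Fin.prod_univ_one]
      refine Finset.prod_congr rfl fun v _ => ?_
      rw [map_pow]
      congr 1
      unfold pf
      rw [MvPolynomial.aeval_rename]
      rfl
    rw [h2] at h1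
    refine Eq.trans ?_ (h1.trans ?_)
    · push_cast
      rfl
    · refine Fintype.sum_equiv (Equiv.funUnique (Fin 1) (B × Fin (d * e + 1))) _ _ fun p => ?_
      have hp : p = fun _ => p 0 := by
        funext i
        rw [Subsingleton.elim i 0]
      have hp' : (Equiv.funUnique (Fin 1) (B × Fin (d * e + 1))) p = p 0 := rfl
      rw [hp']
      congr 1
      unfold xf XF
      rw [Fin.prod_univ_one]
  · intro u hu
    set F : MvPolynomial (Σ i, Fin (n' i)) ℂ := ∑ m : Jx (Fin n) d, MvPolynomial.monomial (ex (jxe m)) (u m) with hF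
    have hFc : ∀ m, F.coeff (ex (jxe m)) = u m := by
      intro m
      rw [hF, MvPolynomial.coeff_sum, Finset.sum_eq_single m]
      · rw [MvPolynomial.coeff_monomial, if_pos rfl]
      · intro m' _ hne
        rw [MvPolynomial.coeff_monomial, if_neg]
        intro h1
        exact hne (jxe.injective (ex_inj h1))
      · intro h1
        exact absurd (Finset.mem_univ _) h1
    have hFd : F.totalDegree ≤ d := by
      refine (MvPolynomial.totalDegree_finsetSum _ _).trans (Finset.sup_le fun m _ => ?_)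
      exact (MvPolynomial.totalDegree_monomial_le _ _).trans (ex_sum _)
    obtain ⟨R, -, hRF, hRs⟩ := lift_rel M' q' a' (δ := d * e) (e := e) (w := fun _ : Unit => (1 : ℂ)) (φ := RingHom.id ℂ)
      (g := g) (h := h') le_rfl (fun _ => hq)
      (fun j s => by simp [hg]) (fun c hc => by
        funext l
        simpa using hc) (fun _ => hM) (C₀ := fun _ => |C|) (fun _ => abs_nonneg _) hh (τ := (t : ℝ)) (fun _ => htw.le)
      (fun _ s hs => ha0 s hs.le) (y := fun _ => 1 / (t : ℂ)) (hlift (fun _ => 1 / (t : ℂ)) (ht₁ t (by omega))) F hFd (by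
        intro p
        have hp : p = fun _ => p 0 := by
          funext i
          rw [Subsingleton.elim i 0]
        rw [sub_eq q' (RingHom.id ℂ) hFd, cc_lin, map_sum]
        have h1 := hu (p 0)
        rw [← h1]
        refine (Fintype.sum_equiv jxe _ _ fun m => ?_).symm
        rw [map_mul, MvPolynomial.eval_C]
        simp only [RingHom.id_apply]
        rw [hFc, mul_comm]
        conv_rhs => rw [hp])
    have hR0 : R = 0 := hR R ⟨(t : ℝ), fun s hs => by
      have h1 := hRs s hs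
      rw [← h1]
      congr 1
      funext v
      obtain ⟨i, v⟩ := v
      unfold pn pf
      rw [MvPolynomial.aeval_rename]
      rfl⟩
    funext m
    rw [← hFc m, ← hRF, hR0, map_zero, MvPolynomial.coeff_zero]
    rfl

end

end Pool.Agent.Y120.J
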