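import Pool.Agent.Y120.J.CoreZ
import Pool.Agent.Y665.J.An
import Pool.Agent.Y929.J.Ric
import Pool.Agent.Y949.J.RamT
import Pool.Agent.Y988.J.FD
import Pool.Agent.Y508.J.ZD
import Pool.Agent.Y119.J.Fam
import Pool.Agent.Y737.J.Ode
import Pool.Agent.Y809.J.SD

/-!
# The positive case
-/

set_option autoImplicit false

open Pool.Agent.TH21.MS (g0 g1 g2 jj)
open Pool.Agent.Y120.R

namespace Pool.Agent.Y120.J

theorem hode : T_ODE := Pool.Agent.Y737.J.t_ode

theorem hsd : T_SD := Pool.Agent.Y809.J.t_sd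

theorem hric : T_RIC := Pool.Agent.Y929.J.t_ric Pool.Agent.Y949.J.t_RAM46 Pool.Agent.Y949.J.t_RAM2

theorem han : T_AN := Pool.Agent.Y665.J.t_an hric hode hsd

theorem hzd : T_ZD := Pool.Agent.Y508.J.t_zd

theorem hfd : T_FD := Pool.Agent.Y988.J.t_fd

lemma hS_true : hS true = hJ := by
  funext j
  unfold hS
  rw [if_pos rfl]

lemma qS_true : qS true = qJ := by
  funext j
  unfold qS
  rw [if_pos rfl]

lemma pS_true (t : ℝ) : pS true t = pz t := by
  funext j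
  unfold pS pz
  rw [hS_true, qS_true]

theorem fm_true : T_FM true := by
  intro δ
  rw [hS_true]
  exact t_fam hode hsd δ

theorem dn_true : T_DN true := by
  intro τ P hP
  refine dens han hzd τ P fun s hs => ?_
  rw [← pS_true]
  exact hP s hs

theorem pt_true : T_PT true := by
  obtain ⟨Y₁, hY₁, hY⟩ := id han
  obtain ⟨T, hT⟩ := hfd Y₁
  refine ⟨T, fun t z ht hz => ?_⟩
  have hsi : ((si true : ℤ) : ℂ) = 1 := by
    unfold si
    rw [if_pos rfl, Int.cast_one]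
  rw [hsi, one_mul] at hz
  obtain ⟨γ, y, hy, hyY, hγ, hgt⟩ := hT z t ht hz
  obtain ⟨h0, hf, h1, h2, h3⟩ := hY y hyY
  have hg1 : 0 < g1 y := by
    rw [h1]
    have := Real.pi_pos
    positivity
  refine ⟨γ, ⟨Complex.I * y, by simpa using hy⟩, hγ, ?_⟩
  rw [pS_true, ← hgt, pz_eq hY hyY, hsi, one_mul]
  have hwc : ((⟨Complex.I * y, by simpa using hy⟩ : UpperHalfPlane) : ℂ) = Complex.I * y := rfl
  rw [hwc, Pool.Agent.TH21.MS.jj_deriv y hy, Pool.Agent.TH21.MS.jj_deriv2 y hy]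
  have hg0c : (g0 y : ℂ) ≠ 0 := Complex.ofReal_ne_zero.2 h0.ne'
  have hg1c : (g1 y : ℂ) ≠ 0 := Complex.ofReal_ne_zero.2 hg1.ne'
  have hZ0 : zz y 0 = Complex.I * (g1 y / g0 y) := by
    show Complex.I * ((g1 y / g0 y : ℝ) : ℂ) = _
    push_cast
    rfl
  have hZ1 : zz y 1 = -(y * g1 y / g0 y) := by
    show ((-(y * g1 y / g0 y) : ℝ) : ℂ) = _
    push_cast
    rfl
  have hZ2 : zz y 2 = Complex.I / 2 * (g1 y / g0 y - g2 y / g1 y) := by
    show Complex.I / 2 * ((g1 y / g0 y - g2 y / g1 y : ℝ) : ℂ) = _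
    push_cast
    rfl
  have hI : Complex.I ^ 2 = -1 := Complex.I_sq
  refine ⟨?_, ?_, ?_, ?_⟩
  · rw [hZ0]
    exact mul_ne_zero Complex.I_ne_zero (div_ne_zero hg1c hg0c)
  · rw [hZ0, hZ1]
    field_simp
    linear_combination (y : ℂ) * hI
  · rw [hZ0]
    field_simp
  · rw [hZ0, hZ2]
    field_simp
    linear_combination (-(g2 y : ℂ) * g0 y) * hI

end Pool.Agent.Y120.J
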