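import Pool.Agent.Y120.J.Asm
import Pool.Agent.Y508.J.Mob

/-!
# The values `z, j'(z), j''(z)` as fractions of the period functions
-/

set_option autoImplicit false

open Pool.Agent.TH21.MS (g0 g1 g2 jj)

namespace Pool.Agent.Y120.J

/-- the linear form `c Z₁ + d Z₀` -/
noncomputable def uP (c d : ℤ) : MvPolynomial (Fin 3) ℤ :=
  MvPolynomial.C c * MvPolynomial.X 1 + MvPolynomial.C d * MvPolynomial.X 0

/-- the numerators -/
noncomputable def nn (a b c d t : ℤ) : Fin 3 → MvPolynomial (Fin 3) ℤ :=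
  ![MvPolynomial.C a * MvPolynomial.X 1 + MvPolynomial.C b * MvPolynomial.X 0,
    MvPolynomial.C (-t) * uP c d ^ 2,
    MvPolynomial.C t * uP c d ^ 3 * (uP c d * (MvPolynomial.X 0 - MvPolynomial.C 2 * MvPolynomial.X 2) -
      MvPolynomial.C (2 * c) * MvPolynomial.X 0)]

/-- the denominators -/
noncomputable def mm (c d : ℤ) : Fin 3 → MvPolynomial (Fin 3) ℤ :=
  ![uP c d, MvPolynomial.X 0, MvPolynomial.X 0 ^ 3]

lemma degCX (c : ℤ) (i : Fin 3) : (MvPolynomial.C c * MvPolynomial.X i : MvPolynomial (Fin 3) ℤ).totalDegree ≤ 1 := by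
  have := MvPolynomial.totalDegree_mul (MvPolynomial.C c : MvPolynomial (Fin 3) ℤ) (MvPolynomial.X i)
  rw [MvPolynomial.totalDegree_C, zero_add, MvPolynomial.totalDegree_X] at this
  exact this

lemma deg_add' {p q : MvPolynomial (Fin 3) ℤ} {n : ℕ} (hp : p.totalDegree ≤ n) (hq : q.totalDegree ≤ n) :
    (p + q).totalDegree ≤ n := (MvPolynomial.totalDegree_add p q).trans (max_le hp hq)

lemma deg_sub' {p q : MvPolynomial (Fin 3) ℤ} {n : ℕ} (hp : p.totalDegree ≤ n) (hq : q.totalDegree ≤ n) :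
    (p - q).totalDegree ≤ n := (MvPolynomial.totalDegree_sub p q).trans (max_le hp hq)

lemma deg_mul' {p q : MvPolynomial (Fin 3) ℤ} {n m : ℕ} (hp : p.totalDegree ≤ n) (hq : q.totalDegree ≤ m) :
    (p * q).totalDegree ≤ n + m := (MvPolynomial.totalDegree_mul p q).trans (add_le_add hp hq)

lemma deg_pow' {p : MvPolynomial (Fin 3) ℤ} {n : ℕ} (hp : p.totalDegree ≤ n) (m : ℕ) :
    (p ^ m).totalDegree ≤ m * n := (MvPolynomial.totalDegree_pow p m).trans (Nat.mul_le_mul_left m hp)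

lemma deg_C' (c : ℤ) : (MvPolynomial.C c : MvPolynomial (Fin 3) ℤ).totalDegree ≤ 0 := by
  rw [MvPolynomial.totalDegree_C]

lemma deg_X' (i : Fin 3) : (MvPolynomial.X i : MvPolynomial (Fin 3) ℤ).totalDegree ≤ 1 := by
  rw [MvPolynomial.totalDegree_X]

lemma uP_deg (c d : ℤ) : (uP c d).totalDegree ≤ 1 := deg_add' (degCX c 1) (degCX d 0)

lemma nn_deg (a b c d t : ℤ) (j : Fin 3) : (nn a b c d t j).totalDegree ≤ 8 := by
  fin_cases j
  · exact le_trans (deg_add' (degCX a 1) (degCX b 0)) (by norm_num)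
  · exact le_trans (deg_mul' (deg_C' (-t)) (deg_pow' (uP_deg c d) 2)) (by norm_num)
  · refine le_trans (deg_mul' (deg_mul' (deg_C' t) (deg_pow' (uP_deg c d) 3)) (deg_sub' (n := 2)
      (deg_mul' (uP_deg c d) (deg_sub' (deg_X' 0) (degCX 2 2))) (le_trans (degCX (2 * c) 0) (by norm_num)))) (by norm_num)

lemma mm_deg (c d : ℤ) (j : Fin 3) : (mm c d j).totalDegree ≤ 8 := by
  fin_cases j
  · exact le_trans (uP_deg c d) (by norm_num)
  · exact le_trans (deg_X' 0) (by norm_num)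
  · exact le_trans (deg_pow' (deg_X' 0) 3) (by norm_num)

/-- evaluation -/
noncomputable def e2 (Z : Fin 3 → ℂ) (p : MvPolynomial (Fin 3) ℤ) : ℂ := MvPolynomial.eval₂ (Int.castRingHom ℂ) Z p

lemma e2_hom (Z : Fin 3 → ℂ) (p : MvPolynomial (Fin 3) ℤ) : e2 Z p = MvPolynomial.eval₂Hom (Int.castRingHom ℂ) Z p := rfl

lemma e2_C (Z : Fin 3 → ℂ) (c : ℤ) : MvPolynomial.eval₂Hom (Int.castRingHom ℂ) Z (MvPolynomial.C c) = (c : ℂ) := by
  rw [MvPolynomial.eval₂Hom_C]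
  rfl

lemma e2_uP (Z : Fin 3 → ℂ) (c d : ℤ) : e2 Z (uP c d) = c * Z 1 + d * Z 0 := by
  rw [e2_hom]
  unfold uP
  simp only [map_add, map_mul, MvPolynomial.eval₂Hom_C, MvPolynomial.eval₂Hom_X']
  rfl

lemma e2_nn (Z : Fin 3 → ℂ) (a b c d t : ℤ) (j : Fin 3) : e2 Z (nn a b c d t j) =
    ![a * Z 1 + b * Z 0, -t * (c * Z 1 + d * Z 0) ^ 2,
      t * (c * Z 1 + d * Z 0) ^ 3 * ((c * Z 1 + d * Z 0) * (Z 0 - 2 * Z 2) - 2 * c * Z 0)] j := by
  have h1 := e2_uP Z c d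
  rw [e2_hom] at h1 ⊢
  unfold nn
  fin_cases j
  · show (MvPolynomial.eval₂Hom (Int.castRingHom ℂ) Z) (MvPolynomial.C a * MvPolynomial.X 1 + MvPolynomial.C b * MvPolynomial.X 0) =
      a * Z 1 + b * Z 0
    simp only [map_add, map_mul, MvPolynomial.eval₂Hom_C, MvPolynomial.eval₂Hom_X']
    rfl
  · show (MvPolynomial.eval₂Hom (Int.castRingHom ℂ) Z) (MvPolynomial.C (-t) * uP c d ^ 2) = -t * (c * Z 1 + d * Z 0) ^ 2
    rw [map_mul, map_pow, e2_C, h1, Int.cast_neg]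
  · show (MvPolynomial.eval₂Hom (Int.castRingHom ℂ) Z) (MvPolynomial.C t * uP c d ^ 3 *
      (uP c d * (MvPolynomial.X 0 - MvPolynomial.C 2 * MvPolynomial.X 2) - MvPolynomial.C (2 * c) * MvPolynomial.X 0)) =
      t * (c * Z 1 + d * Z 0) ^ 3 * ((c * Z 1 + d * Z 0) * (Z 0 - 2 * Z 2) - 2 * c * Z 0)
    rw [map_mul, map_mul, map_pow, map_sub, map_mul, map_mul, map_sub, map_mul, e2_C, e2_C, e2_C, h1,
      MvPolynomial.eval₂Hom_X', MvPolynomial.eval₂Hom_X']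
    push_cast
    ring

lemma e2_mm (Z : Fin 3 → ℂ) (c d : ℤ) (j : Fin 3) : e2 Z (mm c d j) =
    ![(c * Z 1 + d * Z 0 : ℂ), Z 0, Z 0 ^ 3] j := by
  have h1 := e2_uP Z c d
  rw [e2_hom] at h1 ⊢
  unfold mm
  fin_cases j
  · exact h1
  · exact MvPolynomial.eval₂Hom_X' _ _ _
  · show (MvPolynomial.eval₂Hom (Int.castRingHom ℂ) Z) (MvPolynomial.X 0 ^ 3) = Z 0 ^ 3
    rw [map_pow, MvPolynomial.eval₂Hom_X']

/-- the values `z, j'(z), j''(z)` -/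
noncomputable def jt (z : ℂ) : Fin 3 → ℂ := ![z, deriv jj z, deriv (deriv jj) z]

/-- the values as fractions -/
theorem pts {y : ℝ} (hy : 0 < y) (h0 : 0 < g0 y) (h1 : 0 < g1 y) {t : ℤ} (ht : g0 y = t)
    (γ : Matrix.SpecialLinearGroup (Fin 2) ℤ) {z : UpperHalfPlane} (hz : z = γ • (⟨Complex.I * y, by simpa using hy⟩ : UpperHalfPlane)) :
    (∀ j, e2 (zz y) (mm (γ 1 0) (γ 1 1) j) ≠ 0) ∧
    ∀ j, jt z j = e2 (zz y) (nn (γ 0 0) (γ 0 1) (γ 1 0) (γ 1 1) t j) / e2 (zz y) (mm (γ 1 0) (γ 1 1) j) := by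
  set w : UpperHalfPlane := ⟨Complex.I * y, by simpa using hy⟩ with hw
  have hwc : (w : ℂ) = Complex.I * y := rfl
  obtain ⟨-, hd1, hd2, hv, hne⟩ := Pool.Agent.Y508.J.t_mob γ w
  rw [← hz] at hd1 hd2 hv
  rw [hwc] at hd1 hd2 hv hne
  rw [Pool.Agent.TH21.MS.jj_deriv y hy] at hd1 hd2
  rw [Pool.Agent.TH21.MS.jj_deriv2 y hy] at hd2
  have hg0 : (g0 y : ℂ) ≠ 0 := Complex.ofReal_ne_zero.2 h0.ne'
  have hg1 : (g1 y : ℂ) ≠ 0 := Complex.ofReal_ne_zero.2 h1.ne'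
  have htc : (t : ℂ) = (g0 y : ℂ) := by
    rw [ht]
    push_cast
    rfl
  have hZ0 : zz y 0 = Complex.I * (g1 y / g0 y) := by
    show Complex.I * ((g1 y / g0 y : ℝ) : ℂ) = _
    push_cast
    rfl
  have hZ1 : zz y 1 = -(y * g1 y / g0 y) := by
    show ((-(y * g1 y / g0 y) : ℝ) : ℂ) = _
    push_cast
    rfl
  have hZ2 : zz y 2 = Complex.I / 2 * (g1 y / g0 y - g2 y / g1 y) := by
    show Complex.I / 2 * ((g1 y / g0 y - g2 y / g1 y : ℝ) : ℂ) = _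
    push_cast
    rfl
  have hZ0' : zz y 0 ≠ 0 := by
    rw [hZ0]
    exact mul_ne_zero Complex.I_ne_zero (div_ne_zero hg1 hg0)
  have hI : Complex.I ^ 2 = -1 := Complex.I_sq
  have hu : (γ 1 0 : ℂ) * zz y 1 + γ 1 1 * zz y 0 = ((γ 1 0 : ℂ) * (Complex.I * y) + γ 1 1) * zz y 0 := by
    rw [hZ0, hZ1]
    field_simp
    linear_combination (-(γ 1 0 : ℂ) * y) * hI
  have hn : (γ 0 0 : ℂ) * zz y 1 + γ 0 1 * zz y 0 = ((γ 0 0 : ℂ) * (Complex.I * y) + γ 0 1) * zz y 0 := by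
    rw [hZ0, hZ1]
    field_simp
    linear_combination (-(γ 0 0 : ℂ) * y) * hI
  have hu0 : (γ 1 0 : ℂ) * zz y 1 + γ 1 1 * zz y 0 ≠ 0 := by
    rw [hu]
    exact mul_ne_zero hne hZ0'
  set U : ℂ := (γ 1 0 : ℂ) * (Complex.I * y) + γ 1 1 with hU
  refine ⟨fun j => ?_, fun j => ?_⟩
  · rw [e2_mm]
    fin_cases j
    · exact hu0
    · exact hZ0'
    · exact pow_ne_zero 3 hZ0'
  · rw [e2_mm, e2_nn]
    fin_cases j
    · show (z : ℂ) = ((γ 0 0 : ℂ) * zz y 1 + γ 0 1 * zz y 0) / ((γ 1 0 : ℂ) * zz y 1 + γ 1 1 * zz y 0)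
      rw [hv, hu, hn, mul_div_mul_right _ _ hZ0']
    · show deriv jj z = (-t * ((γ 1 0 : ℂ) * zz y 1 + γ 1 1 * zz y 0) ^ 2) / zz y 0
      rw [hd1, hu, htc, eq_div_iff hZ0', hZ0]
      field_simp
    · show deriv (deriv jj) z = (t * ((γ 1 0 : ℂ) * zz y 1 + γ 1 1 * zz y 0) ^ 3 *
        (((γ 1 0 : ℂ) * zz y 1 + γ 1 1 * zz y 0) * (zz y 0 - 2 * zz y 2) - 2 * (γ 1 0 : ℂ) * zz y 0)) / zz y 0 ^ 3
      rw [hd2, hu, htc, eq_div_iff (pow_ne_zero 3 hZ0'), hZ0, hZ2]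
      field_simp
      linear_combination (-(U * g2 y * g0 y)) * hI

end Pool.Agent.Y120.J
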