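import Pool.Agent.Y120.J.WinA

/-!
# Relations with additional algebraically independent numbers
-/

set_option autoImplicit false

open Pool.Agent.Y120.GF Pool.Agent.Y120.R

namespace Pool.Agent.Y120.J

section
variable {ι : Type} {m : ℕ} (θ : Fin m → ℂ) (δ : ℕ)

/-- the space of the polynomials of degree `≤ δ` in each of the numbers `θ` -/
noncomputable def Vθ : Submodule ℚ ℂ := Submodule.span ℚ (Set.range fun e : Fin m → Fin (δ + 1) => ∏ j, θ j ^ (e j : ℕ))

instance : Module.Finite ℚ (Vθ θ δ) := by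
  unfold Vθ
  exact Module.Finite.span_of_finite ℚ (Set.finite_range _)

lemma Vθ_rank : Module.finrank ℚ (Vθ θ δ) ≤ (δ + 1) ^ m := by
  have h := finrank_range_le_card (R := ℚ) (fun e : Fin m → Fin (δ + 1) => ∏ j, θ j ^ (e j : ℕ))
  rw [Fintype.card_fun, Fintype.card_fin, Fintype.card_fin] at h
  exact h

/-- substitution of the numbers `θ` -/
noncomputable def sθ (P : MvPolynomial (ι ⊕ Fin m) ℚ) : MvPolynomial ι ℂ :=
  MvPolynomial.aeval (Sum.elim (fun v => (MvPolynomial.X v : MvPolynomial ι ℂ)) fun j => MvPolynomial.C (θ j)) P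

lemma sθ_eval (x : ι → ℂ) (P : MvPolynomial (ι ⊕ Fin m) ℚ) :
    MvPolynomial.eval x (sθ θ P) = MvPolynomial.aeval (Sum.elim x θ) P := by
  unfold sθ
  rw [MvPolynomial.aeval_def, MvPolynomial.aeval_def, MvPolynomial.hom_eval₂]
  congr 1
  · exact Subsingleton.elim _ _
  · funext v
    rcases v with v | j
    · simp
    · simp

lemma sθ_ne {θ : Fin m → ℂ} (hθ : AlgebraicIndependent ℚ θ) {P : MvPolynomial (ι ⊕ Fin m) ℚ} (hP : P ≠ 0) : sθ θ P ≠ 0 := by
  have h1 : sθ θ P = MvPolynomial.map (MvPolynomial.aeval θ : MvPolynomial (Fin m) ℚ →ₐ[ℚ] ℂ).toRingHom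
      (MvPolynomial.sumAlgEquiv ℚ ι (Fin m) P) := by
    have h2 : ((MvPolynomial.aeval (Sum.elim (fun v => (MvPolynomial.X v : MvPolynomial ι ℂ)) fun j => MvPolynomial.C (θ j)) :
        MvPolynomial (ι ⊕ Fin m) ℚ →ₐ[ℚ] MvPolynomial ι ℂ) : MvPolynomial (ι ⊕ Fin m) ℚ →+* MvPolynomial ι ℂ) =
        (MvPolynomial.map (MvPolynomial.aeval θ : MvPolynomial (Fin m) ℚ →ₐ[ℚ] ℂ).toRingHom).comp
          (MvPolynomial.sumAlgEquiv ℚ ι (Fin m) : MvPolynomial (ι ⊕ Fin m) ℚ →+* _) := by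
      apply MvPolynomial.ringHom_ext
      · intro r
        simp
      · rintro (v | j)
        · simp
        · simp
    exact congrArg (fun f : MvPolynomial (ι ⊕ Fin m) ℚ →+* MvPolynomial ι ℂ => f P) h2
  rw [h1]
  intro h0
  have hinj : Function.Injective (MvPolynomial.aeval θ : MvPolynomial (Fin m) ℚ →ₐ[ℚ] ℂ).toRingHom := hθ
  have h2 := MvPolynomial.map_injective (σ := ι) _ hinj (h0.trans (map_zero _).symm)
  exact hP ((MvPolynomial.sumAlgEquiv ℚ ι (Fin m)).injective (h2.trans (map_zero _).symm))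

variable [Fintype ι]

lemma sθ_sum (P : MvPolynomial (ι ⊕ Fin m) ℚ) : sθ θ P = ∑ s ∈ P.support,
    MvPolynomial.monomial (Finsupp.equivFunOnFinite.symm fun v => s (Sum.inl v))
      (((P.coeff s : ℚ) : ℂ) * ∏ j, θ j ^ s (Sum.inr j)) := by
  classical
  unfold sθ
  rw [MvPolynomial.aeval_def, MvPolynomial.eval₂_eq']
  refine Finset.sum_congr rfl fun s _ => ?_
  rw [Fintype.prod_sum_type]
  simp only [Sum.elim_inl, Sum.elim_inr]
  rw [MvPolynomial.monomial_eq, Finsupp.prod_fintype _ _ (fun _ => pow_zero _), map_mul, map_prod]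
  simp only [map_pow]
  have h1 : algebraMap ℚ (MvPolynomial ι ℂ) (P.coeff s) = MvPolynomial.C ((P.coeff s : ℚ) : ℂ) := by
    rw [IsScalarTower.algebraMap_apply ℚ ℂ (MvPolynomial ι ℂ), MvPolynomial.algebraMap_eq, eq_ratCast]
  rw [h1, mul_assoc]
  congr 1
  rw [mul_comm]
  rfl

lemma sθ_deg {P : MvPolynomial (ι ⊕ Fin m) ℚ} (hP : P.totalDegree ≤ δ) : (sθ θ P).totalDegree ≤ δ := by
  classical
  rw [sθ_sum]
  refine (MvPolynomial.totalDegree_finsetSum _ _).trans (Finset.sup_le fun s hs => ?_)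
  refine (MvPolynomial.totalDegree_monomial_le _ _).trans ?_
  have h1 : (s.sum fun _ e => e) ≤ δ := (MvPolynomial.le_totalDegree hs).trans hP
  rw [Finsupp.sum_fintype _ _ (fun _ => rfl), Fintype.sum_sum_type] at h1
  rw [Finsupp.sum_fintype _ _ (fun _ => rfl)]
  exact (Nat.le_add_right _ _).trans h1

lemma sθ_mem {P : MvPolynomial (ι ⊕ Fin m) ℚ} (hP : P.totalDegree ≤ δ) (u : ι →₀ ℕ) : (sθ θ P).coeff u ∈ Vθ θ δ := by
  classical
  rw [sθ_sum, MvPolynomial.coeff_sum]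
  refine Submodule.sum_mem _ fun s hs => ?_
  rw [MvPolynomial.coeff_monomial]
  split_ifs
  · have h1 : (s.sum fun _ e => e) ≤ δ := (MvPolynomial.le_totalDegree hs).trans hP
    rw [Finsupp.sum_fintype _ _ (fun _ => rfl), Fintype.sum_sum_type] at h1
    have h2 : ∀ j : Fin m, s (Sum.inr j) < δ + 1 := by
      intro j
      have h3 : s (Sum.inr j) ≤ ∑ j : Fin m, s (Sum.inr j) :=
        Finset.single_le_sum (f := fun j : Fin m => s (Sum.inr j)) (fun _ _ => Nat.zero_le _) (Finset.mem_univ j)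
      omega
    have h4 : ((P.coeff s : ℚ) : ℂ) * ∏ j, θ j ^ s (Sum.inr j) = (P.coeff s : ℚ) • ∏ j, θ j ^ s (Sum.inr j) := by
      rw [Rat.smul_def]
    rw [h4]
    exact Submodule.smul_mem _ _ (Submodule.subset_span ⟨fun j => ⟨s (Sum.inr j), h2 j⟩, rfl⟩)
  · exact Submodule.zero_mem _

end

end Pool.Agent.Y120.J
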