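import Pool.Agent.Y120.J.DefsW
import Pool.Agent.Y120.R.XY

/-!
# Relations between values at several points and tensor products
-/

set_option autoImplicit false

open PowerSeries Pool.Agent.Y113 Pool.Agent.Y120.GF Pool.Agent.Y120.GH Pool.Agent.Y120.R

namespace Pool.Agent.Y120.J

/-- the monomials of degree at most `d` in the numbers `z` are independent combinations of the numbers `x` -/
def Dt {σ ν : Type} [Fintype σ] [Fintype ν] [DecidableEq ν] (d : ℕ) (W : Finset ℂ) (x : σ → ℂ) (z : ν → ℂ) : Prop :=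
  ∃ (α : ℂ) (A : σ → Jx ν d → ℂ), α ≠ 0 ∧ (∀ p m, A p m ∈ Submodule.span ℚ (W : Set ℂ)) ∧
    (∀ m : Jx ν d, α * ∏ v, z v ^ (m.1 v : ℕ) = ∑ p, A p m * x p) ∧
    ∀ u : Jx ν d → ℂ, (∀ p, ∑ m, A p m * u m = 0) → u = 0

section
variable {k d : ℕ} {σ ν : Type} [Fintype σ] [Fintype ν] [DecidableEq ν]

/-- the exponent of a tuple of exponents -/
noncomputable def exk (m : Fin k → Jx ν d) : (Σ _ : Fin k, ν) →₀ ℕ :=
  Finsupp.equivFunOnFinite.symm fun v => ((m v.1).1 v.2 : ℕ)

lemma exk_inj : Function.Injective (exk : (Fin k → Jx ν d) → _) := by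
  intro m m' h
  funext i
  apply Subtype.ext
  funext v
  exact Fin.ext (congrFun (congrArg DFunLike.coe h) ⟨i, v⟩)

lemma exk_surj {s : (Σ _ : Fin k, ν) →₀ ℕ} (h : (s.sum fun _ e => e) ≤ d) : ∃ m : Fin k → Jx ν d, exk m = s := by
  classical
  rw [Finsupp.sum_fintype _ _ (fun _ => rfl)] at h
  have hle : ∀ v : Σ _ : Fin k, ν, s v ≤ d := fun v =>
    (Finset.single_le_sum (f := fun v => s v) (fun _ _ => Nat.zero_le _) (Finset.mem_univ v)).trans h
  have hi : ∀ i : Fin k, ∑ v : ν, s ⟨i, v⟩ ≤ d := by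
    intro i
    rw [Fintype.sum_sigma] at h
    exact (Finset.single_le_sum (f := fun i => ∑ v : ν, s ⟨i, v⟩) (fun _ _ => Nat.zero_le _) (Finset.mem_univ i)).trans h
  refine ⟨fun i => ⟨fun v => ⟨s ⟨i, v⟩, Nat.lt_succ_of_le (hle _)⟩, hi i⟩, ?_⟩
  ext v
  rfl

lemma eq_sum_exk {F : MvPolynomial (Σ _ : Fin k, ν) ℂ} (h : F.totalDegree ≤ d) :
    F = ∑ m : Fin k → Jx ν d, MvPolynomial.monomial (exk m) (F.coeff (exk m)) := by
  classical
  ext s
  rw [MvPolynomial.coeff_sum]
  by_cases hs : (s.sum fun _ e => e) ≤ d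
  · obtain ⟨m, rfl⟩ := exk_surj hs
    rw [Finset.sum_eq_single m]
    · rw [MvPolynomial.coeff_monomial, if_pos rfl]
    · intro m' _ hne
      rw [MvPolynomial.coeff_monomial, if_neg]
      intro h1
      exact hne (exk_inj h1)
    · intro h1
      exact absurd (Finset.mem_univ _) h1
  · have h0 : F.coeff s = 0 := by
      by_contra h1
      exact hs ((MvPolynomial.le_totalDegree (MvPolynomial.mem_support_iff.2 h1)).trans h)
    rw [h0]
    symm
    refine Finset.sum_eq_zero fun m _ => ?_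
    rw [MvPolynomial.coeff_monomial]
    split_ifs with h1
    · subst h1
      exact h0
    · rfl

/-- left inverses -/
lemma left_inv {J : Type} [Fintype J] [DecidableEq J] {A : σ → J → ℂ}
    (hA : ∀ u : J → ℂ, (∀ p, ∑ m, A p m * u m = 0) → u = 0) :
    ∃ L : J → σ → ℂ, ∀ m' m, ∑ p, L m' p * A p m = if m' = m then 1 else 0 := by
  classical
  let f : (J → ℂ) →ₗ[ℂ] (σ → ℂ) := Matrix.mulVecLin (Matrix.of A)
  have hf : LinearMap.ker f = ⊥ := by
    rw [LinearMap.ker_eq_bot']
    intro u hu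
    refine hA u fun p => ?_
    exact congrFun hu p
  obtain ⟨g, hg⟩ := LinearMap.exists_leftInverse_of_injective f hf
  refine ⟨fun m' p => g (Pi.single p 1) m', fun m' m => ?_⟩
  have h1 : g (f (Pi.single m 1)) = Pi.single m 1 := by
    have := LinearMap.congr_fun hg (Pi.single m (1 : ℂ))
    exact this
  have h2 : f (Pi.single m 1) = ∑ p, A p m • (Pi.single p (1 : ℂ) : σ → ℂ) := by
    funext p'
    rw [Finset.sum_apply]
    simp only [Pi.smul_apply, smul_eq_mul]
    rw [Finset.sum_eq_single p']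
    · rw [Pi.single_eq_same, mul_one]
      show (Matrix.of A).mulVec (Pi.single m 1) p' = A p' m
      rw [Matrix.mulVec_single_one]
      rfl
    · intro p _ hne
      rw [Pi.single_eq_of_ne (Ne.symm hne), mul_zero]
    · intro h3
      exact absurd (Finset.mem_univ _) h3
  rw [h2, map_sum] at h1
  have h3 := congrFun h1 m'
  rw [Finset.sum_apply, Pi.single_apply] at h3
  rw [← h3]
  refine Finset.sum_congr rfl fun p _ => ?_
  rw [map_smul, Pi.smul_apply, smul_eq_mul, mul_comm]

/-- relations between the numbers `z` give relations between the products of the numbers `x` -/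
theorem tns {W : Finset ℂ} {x : Fin k → σ → ℂ} {z : Fin k → ν → ℂ} (hD : ∀ i, Dt d W (x i) (z i))
    {V : Submodule ℚ ℂ} {F : MvPolynomial (Σ _ : Fin k, ν) ℂ} (hF0 : F ≠ 0) (hFd : F.totalDegree ≤ d)
    (hFV : ∀ s, F.coeff s ∈ V) (hFz : MvPolynomial.eval (fun v => z v.1 v.2) F = 0) :
    Bad (Ext V fun b : Fin k → W => ∏ i, ((b i : W) : ℂ)) fun p : Fin k → σ => ∏ i, x i (p i) := by
  classical
  choose α A hα hAW hAx hA using hD
  choose L hL using fun i => left_inv (hA i)
  have hAc : ∀ i p m, ∃ r : W → ℚ, ∑ l, r l • ((l : W) : ℂ) = A i p m := by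
    intro i p m
    have h1 := hAW i p m
    have h2 : (W : Set ℂ) = Set.range fun l : W => (l : ℂ) := by
      ext w
      simp
    rw [h2] at h1
    exact (Submodule.mem_span_range_iff_exists_fun ℚ).1 h1
  choose rr hrr using hAc
  set f : (Fin k → Jx ν d) → ℂ := fun m => F.coeff (exk m) with hf
  set v : (Fin k → σ) → ℂ := fun p => ∑ m, f m * ∏ i, A i (p i) (m i) with hv
  refine ⟨v, fun p => ?_, fun h0 => ?_, ?_⟩
  · -- the coefficients
    have h1 : ∀ m : Fin k → Jx ν d, ∏ i, A i (p i) (m i) =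
        ∑ b : Fin k → W, ((∏ i, rr i (p i) (m i) (b i) : ℚ) : ℂ) * ∏ i, ((b i : W) : ℂ) := by
      intro m
      have h2 : ∀ i ∈ (Finset.univ : Finset (Fin k)), A i (p i) (m i) = ∑ l : W, ((rr i (p i) (m i) l : ℚ) : ℂ) * (l : ℂ) := by
        intro i _
        rw [← hrr i (p i) (m i)]
        refine Finset.sum_congr rfl fun l _ => ?_
        rw [Rat.smul_def]
      rw [Finset.prod_congr rfl h2, Finset.prod_univ_sum, Fintype.piFinset_univ]
      refine Finset.sum_congr rfl fun b _ => ?_
      rw [Finset.prod_mul_distrib]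
      push_cast
      rfl
    have h3 : v p = ∑ b : Fin k → W, (∑ m, (∏ i, rr i (p i) (m i) (b i) : ℚ) • f m) * ∏ i, ((b i : W) : ℂ) := by
      rw [hv]
      simp only [h1, Finset.mul_sum, Finset.sum_mul]
      rw [Finset.sum_comm]
      refine Finset.sum_congr rfl fun b _ => Finset.sum_congr rfl fun m _ => ?_
      rw [Rat.smul_def]
      ring
    rw [h3]
    exact mem_Ext V _ fun b => Submodule.sum_mem _ fun m _ => V.smul_mem _ (hFV _)
  · -- the coefficients are not all zero
    apply hF0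
    rw [eq_sum_exk hFd]
    refine Finset.sum_eq_zero fun m' _ => ?_
    have h1 : ∑ p : Fin k → σ, (∏ i, L i (m' i) (p i)) * v p = f m' := by
      have h2 : ∀ p : Fin k → σ, (∏ i, L i (m' i) (p i)) * v p =
          ∑ m, f m * ∏ i, (L i (m' i) (p i) * A i (p i) (m i)) := by
        intro p
        rw [hv, Finset.mul_sum]
        refine Finset.sum_congr rfl fun m _ => ?_
        rw [Finset.prod_mul_distrib]
        ring
      rw [Finset.sum_congr rfl fun p _ => h2 p, Finset.sum_comm]
      have h3 : ∀ m : Fin k → Jx ν d, ∑ p : Fin k → σ, f m * ∏ i, (L i (m' i) (p i) * A i (p i) (m i)) =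
          if m' = m then f m else 0 := by
        intro m
        rw [← Finset.mul_sum]
        have h4 : ∑ p : Fin k → σ, ∏ i, (L i (m' i) (p i) * A i (p i) (m i)) =
            ∏ i, ∑ q : σ, L i (m' i) q * A i q (m i) := by
          rw [Finset.prod_univ_sum, Fintype.piFinset_univ]
        rw [h4, Finset.prod_congr rfl fun i _ => hL i (m' i) (m i)]
        split_ifs with h5
        · subst h5
          rw [Finset.prod_eq_one fun i _ => if_pos rfl, mul_one]
        · obtain ⟨i, hi⟩ := Function.ne_iff.1 h5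
          rw [Finset.prod_eq_zero (Finset.mem_univ i) (if_neg hi), mul_zero]
      rw [Finset.sum_congr rfl fun m _ => h3 m, Finset.sum_ite_eq Finset.univ m' f, if_pos (Finset.mem_univ _)]
    have h6 : f m' = 0 := by
      rw [← h1]
      refine Finset.sum_eq_zero fun p _ => ?_
      rw [h0, Pi.zero_apply, mul_zero]
    rw [show MvPolynomial.coeff (exk m') F = f m' from rfl, h6, map_zero]
  · -- the relation
    have h1 : ∑ m, f m * ∏ i, ∏ u, z i u ^ ((m i).1 u : ℕ) = 0 := by
      have h2 := hFz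
      rw [eq_sum_exk hFd, map_sum] at h2
      rw [← h2]
      refine Finset.sum_congr rfl fun m _ => ?_
      rw [MvPolynomial.eval_monomial, Finsupp.prod_fintype _ _ (fun _ => pow_zero _), Fintype.prod_sigma]
      rfl
    have h3 : (∏ i, α i) * (∑ m, f m * ∏ i, ∏ u, z i u ^ ((m i).1 u : ℕ)) = ∑ p : Fin k → σ, v p * ∏ i, x i (p i) := by
      rw [Finset.mul_sum]
      have h4 : ∀ m : Fin k → Jx ν d, (∏ i, α i) * (f m * ∏ i, ∏ u, z i u ^ ((m i).1 u : ℕ)) =
          ∑ p : Fin k → σ, f m * (∏ i, A i (p i) (m i)) * ∏ i, x i (p i) := by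
        intro m
        have h5 : (∏ i, α i) * (f m * ∏ i, ∏ u, z i u ^ ((m i).1 u : ℕ)) =
            f m * ∏ i, (α i * ∏ u, z i u ^ ((m i).1 u : ℕ)) := by
          rw [Finset.prod_mul_distrib]
          ring
        rw [h5, Finset.prod_congr rfl fun i _ => hAx i (m i), Finset.prod_univ_sum, Fintype.piFinset_univ, Finset.mul_sum]
        refine Finset.sum_congr rfl fun p _ => ?_
        rw [Finset.prod_mul_distrib]
        ring
      rw [Finset.sum_congr rfl fun m _ => h4 m, Finset.sum_comm]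
      refine Finset.sum_congr rfl fun p _ => ?_
      rw [← Finset.sum_mul]
    rw [← h3, h1, mul_zero]

end

end Pool.Agent.Y120.J
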