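import Pool.Agent.Y120.J.DtF
import Pool.Agent.Y120.J.FamWin

/-!
# Windows for the points with integral modular invariant
-/

set_option autoImplicit false

open PowerSeries Pool.Agent.Y113 Pool.Agent.Y120.GF Pool.Agent.Y120.GH Pool.Agent.Y120.R
open Pool.Agent.TH21.MS (g0 g1 g2 jj)

namespace Pool.Agent.Y120.J

/-- windows: the general theorem -/
theorem winF {κ ν : Type} [Fintype κ] [Fintype ν] [DecidableEq ν] {n : ℕ} {y : κ → ℚ⟦X⟧} (hW : WinP (XF n y)) (d : ℕ)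
    {W : Finset ℂ} {z : ℕ → ν → ℂ} {t₀ : ℕ} (hD : ∀ t, t₀ < t → Dt d W (XF n y t) (z t)) :
    ∃ G₀ : ℕ, ∀ D k : ℕ, ∃ E M : ℕ, ∀ H t : ℕ, (H + 2) ^ E ≤ t → (∀ g, g ≤ H → t₀ < t - g) ∧
      ∀ (V : Submodule ℚ ℂ) [Module.Finite ℚ V], Module.finrank ℚ V ≤ D → ∃ S : Finset ℕ, S.card ≤ M ∧
        ∀ g : Fin k → ℕ, (∀ i j, i ≠ j → g i + G₀ ≤ g j ∨ g j + G₀ ≤ g i) → (∀ i, g i ≤ H ∧ g i ∉ S) →
          ∀ F : MvPolynomial (Σ _ : Fin k, ν) ℂ, F ≠ 0 → F.totalDegree ≤ d → (∀ s, F.coeff s ∈ V) →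
            MvPolynomial.eval (fun v => z (t - g v.1) v.2) F ≠ 0 := by
  classical
  obtain ⟨G₀, hG⟩ := hW
  refine ⟨G₀, fun D k => ?_⟩
  obtain ⟨E, M, hEM⟩ := hG (Fintype.card (Fin k → W) * D) k
  refine ⟨E + t₀ + 2, M, fun H t ht => ?_⟩
  have h2 : 1 ≤ H + 2 := by omega
  have hEt : (H + 2) ^ E ≤ t := (Nat.pow_le_pow_right h2 (by omega)).trans ht
  have hbig : ∀ g, g ≤ H → t₀ < t - g := by
    intro g hg
    have e1 : 2 ^ (t₀ + 1) * (H + 2) ≤ (H + 2) ^ (t₀ + 1) * (H + 2) :=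
      Nat.mul_le_mul_right _ (Nat.pow_le_pow_left (by omega) _)
    have e2 : (H + 2) ^ (t₀ + 1) * (H + 2) ≤ (H + 2) ^ (E + t₀ + 2) := by
      rw [← pow_succ]
      exact Nat.pow_le_pow_right h2 (by omega)
    have e3 : t₀ + 1 < 2 ^ (t₀ + 1) := Nat.lt_two_pow_self
    have e4 : 2 ^ (t₀ + 1) + H ≤ 2 ^ (t₀ + 1) * (H + 2) := by nlinarith [Nat.one_le_two_pow (n := t₀ + 1)]
    omega
  refine ⟨hbig, ?_⟩
  intro V _ hV
  obtain ⟨S, hSM, hS⟩ := hEM H t hEt (Ext V fun b : Fin k → W => ∏ i, ((b i : W) : ℂ))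
    ((finrank_Ext V _).trans (Nat.mul_le_mul_left _ hV))
  refine ⟨S, hSM, fun g hg hgS F hF0 hFd hFV hFz => ?_⟩
  exact hS g hg hgS (tns (x := fun i => XF n y (t - g i)) (z := fun i => z (t - g i))
    (fun i => hD _ (hbig _ (hgS i).1)) hF0 hFd hFV hFz)

/-- the degree of the period functions -/
lemma qS_deg (s : Bool) (j : Fin 3) : (qS s j).totalDegree ≤ 3 := by
  unfold qS
  cases s
  · fin_cases j
    · exact qJ_deg 0
    · show (qJ 1 + MvPolynomial.C (1 / 2) * qJ 0).totalDegree ≤ 3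
      refine (MvPolynomial.totalDegree_add _ _).trans (max_le (qJ_deg 1) ?_)
      refine (MvPolynomial.totalDegree_mul _ _).trans ?_
      rw [MvPolynomial.totalDegree_C, zero_add]
      exact qJ_deg 0
    · exact qJ_deg 2
  · exact qJ_deg j

theorem famW_S (h4 : T_W4) (s : Bool) (δ : ℕ) : FamW δ (hS s) := by
  cases s
  · exact famW_false h4 δ
  · rw [hS_true]
    exact famW_true h4 δ

/-- windows for integers of one sign -/
theorem winS (h4 : T_W4) (s : Bool) (k δ : ℕ) : ∃ G₀ : ℕ, ∀ D : ℕ, ∃ E M : ℕ, ∀ H t : ℕ, (H + 2) ^ E ≤ t →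
    ∀ (V : Submodule ℚ ℂ) [Module.Finite ℚ V], Module.finrank ℚ V ≤ D → ∃ S : Finset ℕ, S.card ≤ M ∧
      ∀ g : Fin k → ℕ, (∀ i j, i ≠ j → g i + G₀ ≤ g j ∨ g j + G₀ ≤ g i) → (∀ i, g i ≤ H ∧ g i ∉ S) →
        ¬ Bd k δ V fun i => si s * ((t - g i : ℕ) : ℤ) := by
  classical
  obtain ⟨T, hT⟩ := all_PT s
  obtain ⟨w₀, hw₀⟩ := exists_nat_ge T
  set d : ℕ := Fintype.card (Fin k × Fin 3) * (δ * 8) with hd
  obtain ⟨⟨C, hC⟩, B, a, M, ha, hM, hW⟩ := famW_S h4 s (d * 3)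
  obtain ⟨W, t₀, hD⟩ := dt_fam (qS_deg s) hC ha hM fun R hR =>
    fn_zeroS (s := fun _ : Fin 1 => s) all_DN hR
  obtain ⟨G₀, hG⟩ := winF hW d (t₀ := t₀ + w₀) (fun t ht => hD t (by omega))
  refine ⟨G₀, fun D => ?_⟩
  obtain ⟨E, M, hEM⟩ := hG D k
  refine ⟨E, M, fun H t ht V _ hV => ?_⟩
  obtain ⟨hbig, hwin⟩ := hEM H t ht
  obtain ⟨S, hSM, hwS⟩ := hwin V hV
  refine ⟨S, hSM, fun g hg hgS => ?_⟩
  rintro ⟨z, hz, F, hF0, hFd, hFV, hFz⟩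
  set τ : Fin k → ℕ := fun i => t - g i with hτ
  have hτ1 : ∀ i, t₀ + w₀ < τ i := fun i => hbig _ (hgS i).1
  have hti0 : ∀ i, si s * (τ i : ℤ) ≠ 0 := by
    intro i
    have h2 := hτ1 i
    have h3 : (τ i : ℤ) ≠ 0 := by omega
    refine mul_ne_zero ?_ h3
    unfold si
    split_ifs <;> norm_num
  have hpt := fun i => hT (τ i) (z i) (hw₀.trans (by
    have := hτ1 i
    exact_mod_cast (by omega))) (by rw [hz i]; push_cast; rfl)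
  choose γ w hγ hZ0 hw hd1 hd2 using hpt
  have hpts : ∀ i, (∀ j, e2 (pS s (τ i)) (mm (γ i 1 0) (γ i 1 1) j) ≠ 0) ∧
      ∀ j, jt (z i) j = e2 (pS s (τ i)) (nn (γ i 0 0) (γ i 0 1) (γ i 1 0) (γ i 1 1) (si s * τ i) j) /
        e2 (pS s (τ i)) (mm (γ i 1 0) (γ i 1 1) j) := fun i =>
    ptsS (t := si s * (τ i : ℤ)) (hZ0 i) (hw i) (by rw [hd1 i]; push_cast; ring)
      (by rw [hd2 i]; push_cast; ring) (γ i) (hγ i)
  refine hwS g hg hgS (Tr δ (nK γ fun i => si s * (τ i : ℤ)) (mK γ) F) (fun h0 => hF0 (tr_ne hFd γ _ hti0 h0))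
    (Tr_deg (nK_deg γ _) (mK_deg γ) hFd) (Tr_mem hFV) ?_
  have hpn : (fun v : Σ _ : Fin k, Fin 3 => (fun j => MvPolynomial.aeval (p1 (hS s) ((t - g v.1 : ℕ) : ℝ)) (qS s j)) v.2) =
      fun v : Σ _ : Fin k, Fin 3 => pS s (τ v.1) v.2 := rfl
  refine (congrArg (fun u => MvPolynomial.eval u _) hpn).trans ?_
  rw [Tr_eval hFd (fun v : Σ _ : Fin k, Fin 3 => pS s (τ v.1) v.2) fun v => by
    rw [mK_eval γ (fun i => pS s (τ i))]
    exact (hpts v.1).1 v.2]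
  have e1 : (fun v : Fin k × Fin 3 => MvPolynomial.eval₂ (Int.castRingHom ℂ)
      (fun v : Σ _ : Fin k, Fin 3 => pS s (τ v.1) v.2)
      (nK γ (fun i => si s * (τ i : ℤ)) v) / MvPolynomial.eval₂ (Int.castRingHom ℂ)
      (fun v : Σ _ : Fin k, Fin 3 => pS s (τ v.1) v.2) (mK γ v)) = fun v => jt (z v.1) v.2 := by
    funext v
    rw [mK_eval γ (fun i => pS s (τ i)), nK_eval γ _ (fun i => pS s (τ i)), (hpts v.1).2 v.2]
  rw [e1, hFz, mul_zero]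

end Pool.Agent.Y120.J
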