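import Pool.Agent.Y120.J.Win
import Pool.Agent.Y864.J.W4
import Pool.Agent.Y758.J.W1
import Pool.Agent.Y279.J.W2
import Pool.Agent.Y100.J.W3

/-!
# Windows: assembly
-/

set_option autoImplicit false

open Pool.Agent.Y120.GF Pool.Agent.Y120.R

namespace Pool.Agent.Y120.J

theorem hw4 : T_W4 := Pool.Agent.Y864.J.t_w4 (Pool.Agent.Y100.J.t_w3 Pool.Agent.Y758.J.t_w1 Pool.Agent.Y279.J.t_w2)

/-- windows for integers of one sign, second form -/
theorem winS' (s : Bool) (k δ : ℕ) : ∃ G : ℕ, ∀ D : ℕ, ∃ E M : ℕ, ∀ N H : ℕ, (H + 2) ^ E ≤ N →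
    ∀ (V : Submodule ℚ ℂ) [Module.Finite ℚ V], Module.finrank ℚ V ≤ D → ∃ S : Finset ℤ, S.card ≤ M ∧
      ∀ n : Fin k → ℤ, (∀ i, (N : ℤ) ≤ si s * n i ∧ si s * n i ≤ N + H) → (∀ i j, i ≠ j → (G : ℤ) ≤ |n i - n j|) →
        (∀ i, n i ∉ S) → ¬ Bd k δ V n := by
  classical
  obtain ⟨G, hG⟩ := winS hw4 s k δ
  refine ⟨G, fun D => ?_⟩
  obtain ⟨E, M, hEM⟩ := hG D
  refine ⟨E, M, fun N H hN V _ hV => ?_⟩
  obtain ⟨S, hSM, hS⟩ := hEM H (N + H) (hN.trans (Nat.le_add_right _ _)) V hV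
  refine ⟨S.image fun g : ℕ => si s * (((N + H : ℕ) : ℤ) - (g : ℤ)), Finset.card_image_le.trans hSM, ?_⟩
  intro n hn hsep hnS hbad
  have hsi : si s * si s = 1 := by
    unfold si
    split_ifs <;> norm_num
  have habs : ∀ a b : ℤ, |si s * a - si s * b| = |a - b| := by
    intro a b
    unfold si
    split_ifs
    · rw [one_mul, one_mul]
    · rw [← abs_neg]
      congr 1
      ring
  set g : Fin k → ℕ := fun i => (((N + H : ℕ) : ℤ) - si s * n i).toNat with hg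
  have hgi : ∀ i, (g i : ℤ) = (N + H : ℕ) - si s * n i := by
    intro i
    have := (hn i).2
    rw [hg]
    show ((((N + H : ℕ) : ℤ) - si s * n i).toNat : ℤ) = _
    rw [Int.toNat_of_nonneg]
    push_cast
    linarith
  have hgH : ∀ i, g i ≤ H := by
    intro i
    have h1 := (hn i).1
    have h2 := hgi i
    push_cast at h2
    have h3 : (g i : ℤ) ≤ H := by linarith
    exact_mod_cast h3
  have hni : ∀ i, n i = si s * ((N + H : ℕ) - (g i : ℤ)) := by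
    intro i
    rw [hgi i]
    linear_combination (-(n i)) * hsi
  have hbad' : Bd k δ V fun i => si s * ((N + H - g i : ℕ) : ℤ) := by
    have e : (fun i => si s * ((N + H - g i : ℕ) : ℤ)) = n := by
      funext i
      rw [hni i, Nat.cast_sub ((hgH i).trans (Nat.le_add_left _ _))]
    rw [e]
    exact hbad
  refine hS g (fun i j hij => ?_) (fun i => ⟨hgH i, fun hmem => ?_⟩) hbad'
  · have h1 := hsep i j hij
    rw [← habs] at h1
    have h2 := hgi i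
    have h3 := hgi j
    rcases le_abs'.1 h1 with h4 | h4
    · right
      have : (g j : ℤ) + G ≤ g i := by linarith
      exact_mod_cast this
    · left
      have : (g i : ℤ) + G ≤ g j := by linarith
      exact_mod_cast this
  · exact hnS i (Finset.mem_image.2 ⟨g i, hmem, (hni i).symm⟩)

/-- windows for integers of the same sign -/
theorem winZ (k δ : ℕ) : ∃ G : ℕ, ∀ D : ℕ, ∃ E M : ℕ, ∀ N H : ℕ, (H + 2) ^ E ≤ N →
    ∀ (V : Submodule ℚ ℂ) [Module.Finite ℚ V], Module.finrank ℚ V ≤ D → ∃ S : Finset ℤ, S.card ≤ M ∧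
      ∀ n : Fin k → ℤ, ((∀ i, (N : ℤ) ≤ n i ∧ n i ≤ N + H) ∨ ∀ i, (N : ℤ) ≤ -n i ∧ -n i ≤ N + H) →
        (∀ i j, i ≠ j → (G : ℤ) ≤ |n i - n j|) → (∀ i, n i ∉ S) → ¬ Bd k δ V n := by
  classical
  obtain ⟨G₁, hG₁⟩ := winS' true k δ
  obtain ⟨G₂, hG₂⟩ := winS' false k δ
  refine ⟨max G₁ G₂, fun D => ?_⟩
  obtain ⟨E₁, M₁, h₁⟩ := hG₁ D
  obtain ⟨E₂, M₂, h₂⟩ := hG₂ D
  refine ⟨max E₁ E₂, M₁ + M₂, fun N H hN V _ hV => ?_⟩
  have hH : 1 ≤ H + 2 := by omega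
  obtain ⟨S₁, hS₁, hw₁⟩ := h₁ N H ((Nat.pow_le_pow_right hH (le_max_left _ _)).trans hN) V hV
  obtain ⟨S₂, hS₂, hw₂⟩ := h₂ N H ((Nat.pow_le_pow_right hH (le_max_right _ _)).trans hN) V hV
  refine ⟨S₁ ∪ S₂, (Finset.card_union_le _ _).trans (Nat.add_le_add hS₁ hS₂), ?_⟩
  intro n hn hsep hnS
  have hle₁ : (G₁ : ℤ) ≤ ((max G₁ G₂ : ℕ) : ℤ) := by exact_mod_cast le_max_left _ _
  have hle₂ : (G₂ : ℤ) ≤ ((max G₁ G₂ : ℕ) : ℤ) := by exact_mod_cast le_max_right _ _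
  rcases hn with hn | hn
  · refine hw₁ n (fun i => ?_) (fun i j hij => hle₁.trans (hsep i j hij)) fun i hi => hnS i (Finset.mem_union_left _ hi)
    have : si true = 1 := rfl
    rw [this, one_mul]
    exact hn i
  · refine hw₂ n (fun i => ?_) (fun i j hij => hle₂.trans (hsep i j hij)) fun i hi => hnS i (Finset.mem_union_right _ hi)
    have : si false = -1 := rfl
    rw [this, neg_one_mul]
    exact hn i

end Pool.Agent.Y120.J
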